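import Pool.Agent.Helper27.FM.RepLog

/-!
# Logarithms of a homomorphism into a topological algebra
-/

set_option autoImplicit false
open Filter Topology

namespace Pool.Agent.Helper27.FM

section defs

variable (E : Type*) [NormedField E] {A : Type*} [Ring A] [Algebra E A] [TopologicalSpace A]
  {G : Type*} [Group G]

/-- `z` is the logarithm of `R x` -/
def ALog (p : ℕ) (R : G →* A) (x : G) (z : A) : Prop :=
  Tendsto (fun m : ℕ => ((p : E) ^ m)⁻¹ • (R x ^ (p ^ m) - 1)) atTop (𝓝 z)

/-- the span of the logarithms -/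
def ASp (p : ℕ) (R : G →* A) (U : Subgroup G) : Submodule E A :=
  Submodule.span E {z | ∃ x ∈ U, ALog E p R x z}

end defs

section one

variable {A : Type*} [Ring A] {G : Type*} [Group G]

lemma R_mul_inv (R : G →* A) (g : G) : R g * R g⁻¹ = 1 := by
  rw [← map_mul, mul_inv_cancel, map_one]

lemma R_inv_mul (R : G →* A) (g : G) : R g⁻¹ * R g = 1 := by
  rw [← map_mul, inv_mul_cancel, map_one]

lemma R_conj_pow (R : G →* A) (g : G) (a : A) (n : ℕ) :
    R g * a ^ n * R g⁻¹ = (R g * a * R g⁻¹) ^ n := by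
  induction n with
  | zero => rw [pow_zero, pow_zero, mul_one, R_mul_inv]
  | succ n ih =>
    rw [pow_succ, pow_succ, ← ih]
    calc R g * (a ^ n * a) * R g⁻¹ = R g * a ^ n * 1 * a * R g⁻¹ := by noncomm_ring
      _ = _ := by rw [← R_inv_mul R g]; noncomm_ring

end one

section two

variable {E : Type*} [NormedField E] {A : Type*} [Ring A] [Algebra E A] [TopologicalSpace A]
  [IsTopologicalRing A] {G : Type*} [Group G]

lemma ALog_conj {p : ℕ} {R : G →* A} {x : G} {z : A} (h : ALog E p R x z) (g : G) :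
    ALog E p R (g * x * g⁻¹) (R g * z * R g⁻¹) := by
  unfold ALog at *
  refine ((h.const_mul (R g)).mul_const (R g⁻¹)).congr fun n => ?_
  rw [mul_smul_comm, smul_mul_assoc, mul_sub, sub_mul, mul_one, R_mul_inv, R_conj_pow, map_mul,
    map_mul]

lemma ASp_adj {p : ℕ} {R : G →* A} {U : Subgroup G} (hU : U.Normal) (g : G) {z : A}
    (hz : z ∈ ASp E p R U) : R g * z * R g⁻¹ ∈ ASp E p R U := by
  unfold ASp at hz
  induction hz using Submodule.span_induction with
  | mem z hz =>
    obtain ⟨x, hx, hz⟩ := hz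
    exact Submodule.subset_span ⟨g * x * g⁻¹, hU.conj_mem x hx g, ALog_conj hz g⟩
  | zero => rw [mul_zero, zero_mul]; exact Submodule.zero_mem _
  | add a b _ _ ha hb => rw [mul_add, add_mul]; exact Submodule.add_mem _ ha hb
  | smul c a _ ha => rw [mul_smul_comm, smul_mul_assoc]; exact Submodule.smul_mem _ _ ha

end two

section three

variable {E : Type*} [NontriviallyNormedField E] (p : ℕ) [hp : Fact p.Prime] [NormedAlgebra ℚ_[p] E]
  {A : Type*} [Ring A] [Algebra E A] [TopologicalSpace A]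
  [IsTopologicalRing A] [ContinuousSMul E A] {G : Type*} [Group G]

include hp in
/-- if `(a_n - 1)/p^n` converges then `a_n` tends to `1` -/
lemma atendsto_one {a : ℕ → A} {X : A}
    (h : Tendsto (fun n : ℕ => ((p : E) ^ n)⁻¹ • (a n - 1)) atTop (𝓝 X)) :
    Tendsto a atTop (𝓝 1) := by
  have h1 : Tendsto (fun n : ℕ => (p : E) ^ n) atTop (𝓝 0) :=
    tendsto_pow_atTop_nhds_zero_of_norm_lt_one (norm_p_lt_one p)
  have h2 := (h1.smul h).add_const (1 : A)
  rw [zero_smul, zero_add] at h2
  refine h2.congr fun n => ?_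
  have : (p : E) ^ n ≠ 0 := pow_ne_zero _ (p_ne_zero' p)
  rw [smul_smul, mul_inv_cancel₀ this, one_smul, sub_add_cancel]

include hp in
lemma ASp_bracket [CompleteSpace E] [T2Space A] [FiniteDimensional E A] {R : G →* A}
    {U : Subgroup G} (hU : U.Normal) (hs : ∀ x ∈ U, ∃ z, ALog E p R x z) {a b : A}
    (ha : a ∈ ASp E p R U) (hb : b ∈ ASp E p R U) : a * b - b * a ∈ ASp E p R U := by
  have hclosed : IsClosed (ASp E p R U : Set A) := Submodule.closed_of_finiteDimensional _
  unfold ASp at ha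
  induction ha using Submodule.span_induction with
  | mem z hz =>
    obtain ⟨x, hx, hz⟩ := hz
    have hx' : x⁻¹ ∈ U := U.inv_mem hx
    obtain ⟨z', hz'⟩ := hs _ hx'
    refine hclosed.mem_of_tendsto
      (f := fun n : ℕ => ((p : E) ^ n)⁻¹ • (R (x ^ (p ^ n)) * b * R (x ^ (p ^ n))⁻¹ - b))
      (b := atTop) ?_ (Eventually.of_forall fun n => ?_)
    · have h1 : Tendsto (fun n : ℕ => ((p : E) ^ n)⁻¹ • (R x ^ (p ^ n) - 1)) atTop (𝓝 z) := hz
      have h2 : Tendsto (fun n : ℕ => R x⁻¹ ^ (p ^ n)) atTop (𝓝 1) := atendsto_one (E := E) p hz'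
      have h3 := ((h1.mul_const b).sub (h1.const_mul b)).mul h2
      rw [mul_one] at h3
      refine h3.congr fun n => ?_
      have e0 : (R x ^ (p ^ n)) * (R x⁻¹ ^ (p ^ n)) = 1 := by
        rw [← map_pow, ← map_pow, ← map_mul, inv_pow, mul_inv_cancel, map_one]
      have e1 : R (x ^ (p ^ n)) * b * R (x ^ (p ^ n))⁻¹ = (R x ^ (p ^ n)) * b * (R x⁻¹ ^ (p ^ n)) := by
        rw [map_pow, ← inv_pow, map_pow]
      rw [e1]
      set S := R x ^ (p ^ n)
      set T := R x⁻¹ ^ (p ^ n)
      rw [smul_mul_assoc, mul_smul_comm, ← smul_sub, smul_mul_assoc]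
      congr 1
      calc ((S - 1) * b - b * (S - 1)) * T = S * b * T - b * (S * T) := by noncomm_ring
        _ = _ := by rw [e0, mul_one]
    · exact Submodule.smul_mem _ _ (Submodule.sub_mem _ (ASp_adj hU _ hb) hb)
  | zero => simp
  | add a a' _ _ ha ha' =>
    have : (a + a') * b - b * (a + a') = (a * b - b * a) + (a' * b - b * a') := by
      rw [add_mul, mul_add]; abel
    rw [this]; exact Submodule.add_mem _ ha ha'
  | smul c a _ ha =>
    have : (c • a) * b - b * (c • a) = c • (a * b - b * a) := by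
      rw [smul_mul_assoc, mul_smul_comm, smul_sub]
    rw [this]; exact Submodule.smul_mem _ _ ha

end three

end Pool.Agent.Helper27.FM
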