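import Mathlib

/-!
# Definitions: strong irreducibility and twists of two-dimensional representations
-/

set_option autoImplicit false

namespace Pool.Agent.Helper27.FM

variable {E : Type*} [Field E] {G : Type*} [Group G] [TopologicalSpace G]

/-- A two-dimensional representation `V` of a topological group over `E` is *strongly
irreducible* if for every open subgroup `U` the matrices `V g`, `g ∈ U`, span `M_2(E)` over `E`.
By Burnside's theorem this says that the restriction of `V` to every open subgroup is
absolutely irreducible. -/
def StronglyIrreducible (V : G →* GL (Fin 2) E) : Prop :=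
  ∀ U : Subgroup G, IsOpen (U : Set G) →
    Submodule.span E ((fun g => (V g : Matrix (Fin 2) (Fin 2) E)) '' (U : Set G)) = ⊤

/-- `W` is isomorphic to the twist of `V` by a continuous character. -/
def IsTwist [TopologicalSpace E] (W V : G →* GL (Fin 2) E) : Prop :=
  ∃ (χ : G →* Eˣ) (h : GL (Fin 2) E), Continuous χ ∧ ∀ g : G,
    (W g : Matrix (Fin 2) (Fin 2) E) =
      (χ g : E) • ((h * V g * h⁻¹ : GL (Fin 2) E) : Matrix (Fin 2) (Fin 2) E)

end Pool.Agent.Helper27.FM
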