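import Pool.Agent.Helper27.FM.Log

/-!
# p-adic logarithms of matrices of arbitrary size
-/

set_option autoImplicit false
open Filter Topology

namespace Pool.Agent.Helper27.FM

variable {E : Type*} [NormedField E] [IsUltrametricDist E] {m : ℕ}

attribute [local instance] Matrix.normedAddCommGroup Matrix.normedSpace

lemma matn_norm_mul_le (a b : Matrix (Fin m) (Fin m) E) : ‖a * b‖ ≤ ‖a‖ * ‖b‖ := by
  rw [Matrix.norm_le_iff (by positivity)]
  intro i j
  rw [Matrix.mul_apply]
  apply IsUltrametricDist.norm_sum_le_of_forall_le_of_nonneg (by positivity)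
  intro k _
  rw [norm_mul]
  exact mul_le_mul (Matrix.norm_entry_le_entrywise_sup_norm a)
    (Matrix.norm_entry_le_entrywise_sup_norm b) (norm_nonneg _) (norm_nonneg _)

/-- the normed ring structure given by the sup norm -/
@[reducible] noncomputable def matnNormedRing : NormedRing (Matrix (Fin m) (Fin m) E) :=
  { (Matrix.normedAddCommGroup : NormedAddCommGroup (Matrix (Fin m) (Fin m) E)),
    (inferInstance : Ring (Matrix (Fin m) (Fin m) E)) with
    norm_mul_le := matn_norm_mul_le }

lemma matnUltra : @IsUltrametricDist (Matrix (Fin m) (Fin m) E)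
    (matnNormedRing (E := E) (m := m)).toNonUnitalNormedRing.toNormedAddCommGroup.toSeminormedAddCommGroup.toPseudoMetricSpace.toDist :=
  inferInstanceAs (IsUltrametricDist (Fin m → Fin m → E))

variable (p : ℕ) [hp : Fact p.Prime] [NormedAlgebra ℚ_[p] E]

/-- the normed algebra structure -/
@[reducible] noncomputable def matnNormedAlgebra :
    @NormedAlgebra ℚ_[p] (Matrix (Fin m) (Fin m) E) _
      (matnNormedRing (E := E) (m := m)).toSeminormedRing :=
  letI := matnNormedRing (E := E) (m := m)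
  { (inferInstance : Algebra ℚ_[p] (Matrix (Fin m) (Fin m) E)) with
    norm_smul_le := by
      intro c a
      change ‖c • a‖ ≤ ‖c‖ * ‖a‖
      rw [Matrix.norm_le_iff (by positivity)]
      intro i j
      rw [Matrix.smul_apply, norm_smul]
      gcongr
      exact Matrix.norm_entry_le_entrywise_sup_norm a }

omit [IsUltrametricDist E] in
lemma smul_p_eqn (n : ℕ) (a : Matrix (Fin m) (Fin m) E) :
    ((p : E) ^ n)⁻¹ • a = ((p : ℚ_[p]) ^ n)⁻¹ • a := by
  ext i j
  rw [Matrix.smul_apply, Matrix.smul_apply, smul_eq_mul, Algebra.smul_def, map_inv₀, map_pow,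
    map_natCast]

lemma exists_log_matn [CompleteSpace E] (a : Matrix (Fin m) (Fin m) E)
    (ha : ∀ i j, ‖(a - 1) i j‖ ≤ (p : ℝ)⁻¹ ^ 2) :
    ∃ X : Matrix (Fin m) (Fin m) E,
      Tendsto (fun n : ℕ => ((p : E) ^ n)⁻¹ • (a ^ (p ^ n) - 1)) atTop (𝓝 X) := by
  letI := matnNormedRing (E := E) (m := m)
  letI := matnNormedAlgebra (E := E) (m := m) p
  haveI := matnUltra (E := E) (m := m)
  have hC : @CompleteSpace (Matrix (Fin m) (Fin m) E)
      (matnNormedRing (E := E) (m := m)).toPseudoMetricSpace.toUniformSpace :=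
    inferInstanceAs (CompleteSpace (Fin m → Fin m → E))
  have ha' : ‖a - 1‖ ≤ (p : ℝ)⁻¹ ^ 2 := by
    rw [Matrix.norm_le_iff (by positivity)]
    exact ha
  obtain ⟨X, hX⟩ := @exists_log (Matrix (Fin m) (Fin m) E) _ _ p _ _ hC (a - 1) ha'
  refine ⟨X, ?_⟩
  have : (fun n : ℕ => ((p : E) ^ n)⁻¹ • (a ^ (p ^ n) - 1)) = logSeq p (a - 1) := by
    funext n
    rw [smul_p_eqn, logSeq, add_sub_cancel]
  rw [this]
  exact hX

end Pool.Agent.Helper27.FM
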