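import Pool.Agent.Helper27.FM.PolyDer

/-!
# Almost everywhere vanishing propagates along invariant derivations
-/

set_option autoImplicit false
open Filter Topology MeasureTheory

namespace Pool.Agent.Helper27.FM

section rec

variable {E : Type*} [NormedField E] {G : Type*} [Group G] [TopologicalSpace G]
  [IsTopologicalGroup G] [CompactSpace G] [MeasurableSpace G] [BorelSpace G] (μ : Measure G)
  [IsFiniteMeasure μ] [μ.IsMulLeftInvariant] {A : Type*} [Ring A] [TopologicalSpace A]
  [IsTopologicalRing A]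

lemma recur_tendsto {F : A → E} (hF : Continuous F) {R : G →* A} (hR : Continuous R) {h : ℕ → G}
    (hh : Tendsto (fun n => R (h n)) atTop (𝓝 1)) :
    Tendsto (fun n => μ {g | F (R g) = 0 ∧ F (R (h n * g)) ≠ 0}) atTop (𝓝 0) := by
  have hFR : Continuous (fun g => F (R g)) := hF.comp hR
  set K : Set G := {g | F (R g) = 0} with hK
  have hKc : IsClosed K := isClosed_eq hFR continuous_const
  have hKm : MeasurableSet K := hKc.measurableSet
  set O : ℕ → Set G := fun m => {g | ‖F (R g)‖ < 1 / ((m : ℝ) + 1)} with hO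
  have hOo : ∀ m, IsOpen (O m) := fun m => isOpen_lt hFR.norm continuous_const
  have hOm : ∀ m, MeasurableSet (O m) := fun m => (hOo m).measurableSet
  have hanti : Antitone (fun m => O m \ K) := by
    intro m m' hmm' g hg
    have hg1 : ‖F (R g)‖ < 1 / ((m' : ℝ) + 1) := hg.1
    refine ⟨show ‖F (R g)‖ < 1 / ((m : ℝ) + 1) from lt_of_lt_of_le hg1 ?_, hg.2⟩
    apply one_div_le_one_div_of_le (by positivity)
    have : (m : ℝ) ≤ m' := by exact_mod_cast hmm'
    linarith
  have hinter : (⋂ m, (O m \ K)) = ∅ := by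
    ext g
    simp only [Set.mem_iInter, Set.mem_empty_iff_false, iff_false]
    intro hg
    have h1 : ∀ m : ℕ, ‖F (R g)‖ ≤ 1 / ((m : ℝ) + 1) := fun m => (hg m).1.le
    have h2 : ‖F (R g)‖ ≤ 0 := ge_of_tendsto' tendsto_one_div_add_atTop_nhds_zero_nat h1
    exact (hg 0).2 (norm_le_zero_iff.mp h2)
  have hlim : Tendsto (fun m => μ (O m \ K)) atTop (𝓝 0) := by
    have := tendsto_measure_iInter_atTop (μ := μ) (s := fun m => O m \ K)
      (fun m => ((hOm m).diff hKm).nullMeasurableSet) hanti ⟨0, measure_ne_top _ _⟩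
    rw [hinter, measure_empty] at this
    exact this
  rw [ENNReal.tendsto_nhds_zero]
  intro ε hε
  obtain ⟨m, hm⟩ := ((ENNReal.tendsto_nhds_zero.mp hlim) ε hε).exists
  have hcomp : ∀ᶠ a in 𝓝 (1 : A), ∀ g ∈ K, ‖F (a * R g)‖ < 1 / ((m : ℝ) + 1) := by
    apply IsCompact.eventually_forall_of_forall_eventually hKc.isCompact
    intro g hg
    have hc : Continuous (fun q : A × G => ‖F (q.1 * R q.2)‖) :=
      (hF.comp (continuous_fst.mul (hR.comp continuous_snd))).norm
    apply hc.continuousAt.eventually_lt continuousAt_const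
    simp only [one_mul]
    rw [show F (R g) = 0 from hg, norm_zero]
    positivity
  filter_upwards [hh.eventually hcomp] with n hn
  calc μ {g | F (R g) = 0 ∧ F (R (h n * g)) ≠ 0}
      ≤ μ ((fun g => h n * g) ⁻¹' (O m \ K)) := by
        apply measure_mono
        rintro g ⟨hg1, hg2⟩
        refine ⟨?_, hg2⟩
        change ‖F (R (h n * g))‖ < _
        rw [map_mul]
        exact hn g hg1
    _ = μ (O m \ K) := measure_preimage_mul μ (h n) _
    _ ≤ ε := hm

lemma recur {F : A → E} (hF : Continuous F) {R : G →* A} (hR : Continuous R) {h : ℕ → G}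
    (hh : Tendsto (fun n => R (h n)) atTop (𝓝 1)) :
    ∀ᵐ g ∂μ, F (R g) = 0 → ∃ᶠ n in atTop, F (R (h n * g)) = 0 := by
  have hlim := recur_tendsto μ hF hR hh
  rw [ae_iff]
  have hsub : {g | ¬ (F (R g) = 0 → ∃ᶠ n in atTop, F (R (h n * g)) = 0)} ⊆
      ⋃ J : ℕ, ⋂ n : ℕ, {g | F (R g) = 0 ∧ F (R (h (J + n) * g)) ≠ 0} := by
    intro g hg
    simp only [Set.mem_ofPred_eq, Classical.not_imp, not_frequently] at hg
    obtain ⟨h1, h2⟩ := hg
    obtain ⟨J, hJ⟩ := eventually_atTop.mp h2
    rw [Set.mem_iUnion]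
    refine ⟨J, ?_⟩
    rw [Set.mem_iInter]
    intro n
    exact ⟨h1, hJ (J + n) (Nat.le_add_right _ _)⟩
  refine measure_mono_null hsub (measure_iUnion_null fun J => ?_)
  apply le_antisymm _ (zero_le)
  refine ge_of_tendsto' (hlim.comp (tendsto_add_atTop_nat J)) fun n => ?_
  apply measure_mono
  intro g hg
  rw [Set.mem_iInter] at hg
  have := hg n
  rw [add_comm] at this
  exact this

end rec

section main

variable {E : Type*} [NontriviallyNormedField E] [CompleteSpace E] (p : ℕ) [hp : Fact p.Prime]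
  [NormedAlgebra ℚ_[p] E] {A : Type*} [Ring A] [Algebra E A] [TopologicalSpace A]
  [IsTopologicalRing A] [ContinuousSMul E A] [T2Space A] {ν : Type*} [Fintype ν]
  (b : Module.Basis ν E A)
  {G : Type*} [Group G] [TopologicalSpace G]
  [IsTopologicalGroup G] [CompactSpace G] [MeasurableSpace G] [BorelSpace G] (μ : Measure G)
  [IsFiniteMeasure μ] [μ.IsMulLeftInvariant]

include hp in
lemma ae_deriv {R : G →* A} (hR : Continuous R) {x : G} {z : A} (hz : ALog E p R x z)
    (Q : MvPolynomial ν E) : ∀ᵐ g ∂μ, ev b (R g) Q = 0 → ev b (R g) (Dd b z Q) = 0 := by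
  have hh : Tendsto (fun n => R (x ^ (p ^ n))) atTop (𝓝 1) := by
    refine (atendsto_one (E := E) p hz).congr fun n => ?_
    rw [map_pow]
  filter_upwards [recur μ (continuous_ev b Q) hR hh] with g hg h0
  have h1 := tendsto_diff p b hz (R g) Q
  have h2 := hg h0
  have h3 : ∃ᶠ n in atTop, ((p : E) ^ n)⁻¹ * (ev b (R x ^ (p ^ n) * R g) Q - ev b (R g) Q) ∈
      ({0} : Set E) := by
    refine h2.mono fun n hn => ?_
    rw [map_mul, map_pow] at hn
    rw [hn, h0, sub_zero, mul_zero]
    rfl
  exact isClosed_singleton.mem_of_frequently_of_tendsto h3 h1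

include hp in
lemma ae_span {R : G →* A} (hR : Continuous R) {U : Subgroup G} {z : A} (hz : z ∈ ASp E p R U)
    (Q : MvPolynomial ν E) : ∀ᵐ g ∂μ, ev b (R g) Q = 0 → ev b (R g) (Dd b z Q) = 0 := by
  unfold ASp at hz
  induction hz using Submodule.span_induction with
  | mem z hz =>
    obtain ⟨x, _, hz⟩ := hz
    exact ae_deriv p b μ hR hz Q
  | zero =>
    filter_upwards with g _
    rw [Dd_zero]; simp
  | add a c _ _ ha hc =>
    filter_upwards [ha, hc] with g h1 h2 h0
    rw [Dd_add, Derivation.add_apply, map_add, h1 h0, h2 h0, add_zero]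
  | smul c a _ ha =>
    filter_upwards [ha] with g h1 h0
    rw [Dd_smul, Derivation.smul_apply, map_smul, h1 h0, smul_zero]

include hp in
/-- almost every zero is a zero to infinite order along the Lie span -/
lemma ae_infVan {R : G →* A} (hR : Continuous R) {U : Subgroup G} {κ : Type*} [Countable κ]
    {s : κ → A} (hs : ∀ k, s k ∈ ASp E p R U) (Q : MvPolynomial ν E) :
    ∀ᵐ g ∂μ, ev b (R g) Q = 0 → InfVan b (Set.range s) (R g) Q := by
  have key : ∀ w : List κ, ∀ᵐ g ∂μ, ev b (R g) Q = 0 →
      ev b (R g) ((w.map s).foldr (fun z P => Dd b z P) Q) = 0 := by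
    intro w
    induction w with
    | nil => filter_upwards with g h0 using h0
    | cons k w ih =>
      filter_upwards [ih, ae_span p b μ hR (hs k)
        ((w.map s).foldr (fun z P => Dd b z P) Q)] with g h1 h2 h0
      rw [List.map_cons, List.foldr_cons]
      exact h2 (h1 h0)
  rw [← ae_all_iff] at key
  filter_upwards [key] with g hg h0
  intro w hw
  have : ∃ l : List κ, l.map s = w := by
    induction w with
    | nil => exact ⟨[], rfl⟩
    | cons z w ih =>
      obtain ⟨l, hl⟩ := ih (fun y hy => hw y (List.mem_cons_of_mem _ hy))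
      obtain ⟨k, hk⟩ := hw z List.mem_cons_self
      exact ⟨k :: l, by rw [List.map_cons, hk, hl]⟩
  obtain ⟨l, rfl⟩ := this
  exact hg l h0

end main

end Pool.Agent.Helper27.FM
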