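import Pool.Agent.Helper27.FM.Iso3
import Pool.Agent.Helper27.FM.AEvan
import Pool.Agent.Helper27.FM.LogN

/-!
# Algebraic relations on sets of positive measure
-/

set_option autoImplicit false
open Matrix Module Filter Topology MeasureTheory

namespace Pool.Agent.Helper27.FM

section sl

variable {E : Type*} [Field E] [CharZero E] {B : Type*} [Ring B] [Algebra E B] {ν : Type*}
  [Fintype ν] (b : Module.Basis ν E (M2 E × B))

/-- the two nilpotents -/
def nil2 (E : Type*) [Field E] (B : Type*) [Ring B] (k : Bool) : M2 E × B :=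
  if k then (single 0 1 1, 0) else (single 1 0 1, 0)

omit [CharZero E] [Algebra E B] in
lemma nil2_sq (k : Bool) : nil2 E B k * nil2 E B k = 0 := by
  unfold nil2
  cases k <;> simp

omit [CharZero E] in
lemma nil2_true (t : E) : (1 + t • nil2 E B true) = ((!![1, t; 0, 1] : M2 E), (1 : B)) := by
  unfold nil2
  ext1
  · apply ext2 <;> simp [Matrix.single]
  · simp

omit [CharZero E] in
lemma nil2_false (t : E) : (1 + t • nil2 E B false) = ((!![1, 0; t, 1] : M2 E), (1 : B)) := by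
  unfold nil2
  ext1
  · apply ext2 <;> simp [Matrix.single]
  · simp

lemma infVan_sl {X : M2 E × B} {Q : MvPolynomial ν E}
    (h : InfVan b (Set.range (nil2 E B)) X Q) (u : M2 E) (hu : u.det = 1) :
    InfVan b (Set.range (nil2 E B)) ((u, 1) * X) Q := by
  have hT : ∀ (t : E) (Y : M2 E × B), InfVan b (Set.range (nil2 E B)) Y Q →
      InfVan b (Set.range (nil2 E B)) (((!![1, t; 0, 1] : M2 E), (1 : B)) * Y) Q := by
    intro t Y hY
    rw [← nil2_true]
    exact hY.step b (nil2_sq true) ⟨true, rfl⟩ t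
  have hF : ∀ (t : E) (Y : M2 E × B), InfVan b (Set.range (nil2 E B)) Y Q →
      InfVan b (Set.range (nil2 E B)) (((!![1, 0; t, 1] : M2 E), (1 : B)) * Y) Q := by
    intro t Y hY
    rw [← nil2_false]
    exact hY.step b (nil2_sq false) ⟨false, rfl⟩ t
  have main : ∀ (u : M2 E), u.det = 1 → u 1 0 ≠ 0 →
      InfVan b (Set.range (nil2 E B)) ((u, 1) * X) Q := by
    intro u hu hc
    have h1 := hT ((u 0 0 - 1) / u 1 0) _ (hF (u 1 0) _ (hT ((u 1 1 - 1) / u 1 0) _ h))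
    have e0 : (((!![1, (u 0 0 - 1) / u 1 0; 0, 1] : M2 E), (1 : B)) *
        (((!![1, 0; u 1 0, 1] : M2 E), (1 : B)) *
        (((!![1, (u 1 1 - 1) / u 1 0; 0, 1] : M2 E), (1 : B)) * X))) =
        ((!![1, (u 0 0 - 1) / u 1 0; 0, 1] : M2 E) * !![1, 0; u 1 0, 1] *
        !![1, (u 1 1 - 1) / u 1 0; 0, 1], (1 : B)) * X := by
      rw [← mul_assoc, ← mul_assoc]
      congr 1
      ext1
      · rfl
      · simp
    rw [e0] at h1
    have e : (!![1, (u 0 0 - 1) / u 1 0; 0, 1] : M2 E) * !![1, 0; u 1 0, 1] *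
        !![1, (u 1 1 - 1) / u 1 0; 0, 1] = u := by
      rw [det_def] at hu
      apply ext2
      · simp; field_simp; ring
      · simp; field_simp; linear_combination hu
      · simp
      · simp; field_simp; ring
    rw [e] at h1
    exact h1
  by_cases hc : u 1 0 = 0
  · have hu' := hu
    rw [det_def, hc, mul_zero, sub_zero] at hu
    have ha : u 0 0 ≠ 0 := by
      intro h0; rw [h0, zero_mul] at hu; exact zero_ne_one hu
    have h1 := main ((!![1, 0; 1, 1] : M2 E) * u) (by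
      rw [Matrix.det_mul, hu', mul_one]; simp [Matrix.det_fin_two_of]) (by
      simp [Matrix.mul_apply, Fin.sum_univ_two, hc, ha])
    have h2 := hF (-1) _ h1
    have e0 : (((!![1, 0; -1, 1] : M2 E), (1 : B)) *
        (((!![1, 0; 1, 1] : M2 E) * u, (1 : B)) * X)) =
        ((!![1, 0; -1, 1] : M2 E) * !![1, 0; 1, 1] * u, (1 : B)) * X := by
      rw [← mul_assoc]
      congr 1
      ext1
      · exact (Matrix.mul_assoc _ _ _).symm
      · simp
    rw [e0] at h2
    have e : (!![1, 0; -1, 1] : M2 E) * !![1, 0; 1, 1] = 1 := by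
      apply ext2 <;> simp
    rw [e, one_mul] at h2
    exact h2
  · exact main u hu hc

end sl

section main

variable {E : Type*} [NontriviallyNormedField E] [IsUltrametricDist E] [CompleteSpace E] (p : ℕ)
  [hp : Fact p.Prime] [NormedAlgebra ℚ_[p] E]
  {G : Type*} [Group G] [TopologicalSpace G]
  [IsTopologicalGroup G] [CompactSpace G] [TotallyDisconnectedSpace G]
  {ι J : Type*} [Fintype ι] [Fintype J] {n : J → ℕ}
  {V : G →* GL (Fin 2) E} {ρ : ι → G →* GL (Fin 2) E} {σ : ∀ j : J, G →* GL (Fin (n j)) E}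

omit [IsUltrametricDist E] [CompleteSpace E] [IsTopologicalGroup G] [CompactSpace G]
  [TotallyDisconnectedSpace G] [Fintype ι] [Fintype J] in
lemma continuous_RR (hV : Continuous V) (hρ : ∀ i, Continuous (ρ i)) (hσ : ∀ j, Continuous (σ j)) :
    Continuous (RR V ρ σ) := by
  refine Continuous.prodMk (Units.continuous_val.comp hV) (Continuous.prodMk ?_ ?_)
  · exact continuous_pi fun i => Units.continuous_val.comp (hρ i)
  · exact continuous_pi fun j => Units.continuous_val.comp (hσ j)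

omit [CompactSpace G] [TotallyDisconnectedSpace G] [Fintype ι] [Fintype J]
  [TopologicalSpace G] [IsTopologicalGroup G] in
lemma alog_exists {x : G}
    (h1 : ∀ i j, ‖((V x : M2 E) - 1) i j‖ ≤ (p : ℝ)⁻¹ ^ 2)
    (h2 : ∀ k i j, ‖((ρ k x : M2 E) - 1) i j‖ ≤ (p : ℝ)⁻¹ ^ 2)
    (h3 : ∀ k i j, ‖((σ k x : Matrix (Fin (n k)) (Fin (n k)) E) - 1) i j‖ ≤ (p : ℝ)⁻¹ ^ 2) :
    ∃ z, ALog E p (RR V ρ σ) x z := by
  obtain ⟨z1, hz1⟩ := exists_log_mat p (V x : M2 E) h1
  choose z2 hz2 using fun k => exists_log_mat p (ρ k x : M2 E) (h2 k)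
  choose z3 hz3 using fun k => exists_log_matn p (σ k x : Matrix (Fin (n k)) (Fin (n k)) E) (h3 k)
  refine ⟨(z1, (z2, z3)), ?_⟩
  unfold ALog
  have h4 : Tendsto (fun m : ℕ => ((fun k => ((p : E) ^ m)⁻¹ • ((ρ k x : M2 E) ^ (p ^ m) - 1)) :
      ι → M2 E)) atTop (𝓝 z2) := tendsto_pi_nhds.mpr hz2
  have h5 : Tendsto (fun m : ℕ => ((fun k => ((p : E) ^ m)⁻¹ •
      ((σ k x : Matrix (Fin (n k)) (Fin (n k)) E) ^ (p ^ m) - 1)) :
      ∀ k, Matrix (Fin (n k)) (Fin (n k)) E)) atTop (𝓝 z3) := tendsto_pi_nhds.mpr hz3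
  exact (hz1.prodMk_nhds (h4.prodMk_nhds h5))

omit [Fintype ι] [Fintype J] in
lemma exists_small3 [Finite ι] [Finite J] (hV : Continuous V) (hρ : ∀ i, Continuous (ρ i))
    (hσ : ∀ j, Continuous (σ j)) :
    ∃ U : Subgroup G, U.Normal ∧ IsOpen (U : Set G) ∧ ∀ x ∈ U,
      (∀ i j, ‖((V x : M2 E) - 1) i j‖ ≤ (p : ℝ)⁻¹ ^ 2) ∧
      (∀ k i j, ‖((ρ k x : M2 E) - 1) i j‖ ≤ (p : ℝ)⁻¹ ^ 2) ∧
      (∀ k i j, ‖((σ k x : Matrix (Fin (n k)) (Fin (n k)) E) - 1) i j‖ ≤ (p : ℝ)⁻¹ ^ 2) := by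
  have hp0 : 0 < (p : ℝ)⁻¹ ^ 2 := by
    have := hp.out.pos
    positivity
  have hcont : ∀ (m : ℕ) (τ : G →* GL (Fin m) E), Continuous τ → ∀ i j,
      IsOpen {x | ‖((τ x : Matrix (Fin m) (Fin m) E) - 1) i j‖ < (p : ℝ)⁻¹ ^ 2} := by
    intro m τ hτ i j
    apply isOpen_lt _ continuous_const
    apply Continuous.norm
    exact (((Units.continuous_val.comp hτ).sub continuous_const).matrix_elem i j)
  let W : Set G := (⋂ i, ⋂ j, {x | ‖((V x : M2 E) - 1) i j‖ < (p : ℝ)⁻¹ ^ 2}) ∩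
    ((⋂ k, ⋂ i, ⋂ j, {x | ‖((ρ k x : M2 E) - 1) i j‖ < (p : ℝ)⁻¹ ^ 2}) ∩
    (⋂ k, ⋂ i, ⋂ j, {x | ‖((σ k x : Matrix (Fin (n k)) (Fin (n k)) E) - 1) i j‖ < (p : ℝ)⁻¹ ^ 2}))
  have hW : IsOpen W := by
    refine IsOpen.inter ?_ (IsOpen.inter ?_ ?_)
    · exact isOpen_iInter_of_finite fun i => isOpen_iInter_of_finite fun j => hcont _ _ hV i j
    · exact isOpen_iInter_of_finite fun k => isOpen_iInter_of_finite fun i =>
        isOpen_iInter_of_finite fun j => hcont _ _ (hρ k) i j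
    · exact isOpen_iInter_of_finite fun k => isOpen_iInter_of_finite fun i =>
        isOpen_iInter_of_finite fun j => hcont _ _ (hσ k) i j
  have h1W : (1 : G) ∈ W := by
    refine ⟨?_, ?_, ?_⟩ <;> simp only [Set.mem_iInter, Set.mem_ofPred_eq] <;> intros <;>
      simpa using hp0
  obtain ⟨H, hH⟩ := ProfiniteGrp.exist_openNormalSubgroup_sub_open_nhds_of_one hW h1W
  refine ⟨H.toSubgroup, H.isNormal', H.isOpen', fun x hx => ?_⟩
  obtain ⟨h1, h2, h3⟩ := hH hx
  simp only [Set.mem_iInter, Set.mem_ofPred_eq] at h1 h2 h3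
  exact ⟨fun i j => (h1 i j).le, fun k i j => (h2 k i j).le, fun k i j => (h3 k i j).le⟩

omit [Fintype ι] [Fintype J] in
/-- a strongly irreducible `V` is a twist of some `ρ i` or its `sl_2` is isolated -/
theorem sl_in_span [Finite ι] [Finite J] (hVc : Continuous V) (hirr : StrIrr V)
    (hocc : ∀ j, ¬ AdOccurs V (σ j)) {U : Subgroup G} (hU : U.Normal) (hUo : IsOpen (U : Set G))
    (hs : ∀ x ∈ U,
      (∀ i j, ‖((V x : M2 E) - 1) i j‖ ≤ (p : ℝ)⁻¹ ^ 2) ∧
      (∀ k i j, ‖((ρ k x : M2 E) - 1) i j‖ ≤ (p : ℝ)⁻¹ ^ 2) ∧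
      (∀ k i j, ‖((σ k x : Matrix (Fin (n k)) (Fin (n k)) E) - 1) i j‖ ≤ (p : ℝ)⁻¹ ^ 2)) :
    (∃ i, ∃ h : GL (Fin 2) E, ∀ g, ∃ c : E, (V g : M2 E) = c • cj h (ρ i g)) ∨
      ∀ x : M2 E, x.trace = 0 → ((x, (0, 0)) : Amb3 E ι n) ∈ ASp E p (RR V ρ σ) U := by
  have : CharZero E := charZeroE p
  have hlog : ∀ x ∈ U, ∃ z, ALog E p (RR V ρ σ) x z := fun x hx =>
    alog_exists p (hs x hx).1 (hs x hx).2.1 (hs x hx).2.2
  have : Fintype ι := Fintype.ofFinite ι
  have : Fintype J := Fintype.ofFinite J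
  have : FiniteDimensional E (Amb3 E ι n) := inferInstance
  apply isolate (adSimple_of_strIrr hVc hirr) ?_ (ASp E p (RR V ρ σ) U) ?_ ?_ ?_ hocc
  · have := hirr ⊤ isOpen_univ
    rw [← this]
    congr 1
    ext x
    simp
  · intro a ha b hb
    exact ASp_bracket p hU hlog ha hb
  · intro g z hz
    exact ASp_adj hU g hz
  · -- nonscalar
    have hsm : ∀ x ∈ U, Small p (fun _ : Unit => V) x := fun x hx _ => (hs x hx).1
    obtain ⟨z, hz, hzn⟩ := LSp_nonscalar p (R := fun _ : Unit => V) hU hUo hsm () hirr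
    by_contra hcon
    push Not at hcon
    have hall : ∀ w ∈ LSp p (fun _ : Unit => V) U, ∃ c : E, w () = c • (1 : M2 E) := by
      intro w hw
      unfold LSp at hw
      induction hw using Submodule.span_induction with
      | mem w hw =>
        obtain ⟨x, hx, hw⟩ := hw
        obtain ⟨y, hy⟩ := hlog x hx
        obtain ⟨c, hc⟩ := hcon y (Submodule.subset_span ⟨x, hx, hy⟩)
        refine ⟨c, ?_⟩
        have h1 := (continuous_fst.tendsto y).comp hy
        rw [hc] at h1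
        exact tendsto_nhds_unique (hw ()) h1
      | zero => exact ⟨0, by simp⟩
      | add a b _ _ ha hb =>
        obtain ⟨c, hc⟩ := ha
        obtain ⟨d, hd⟩ := hb
        exact ⟨c + d, by rw [Pi.add_apply, hc, hd, add_smul]⟩
      | smul t a _ ha =>
        obtain ⟨c, hc⟩ := ha
        exact ⟨t * c, by rw [Pi.smul_apply, hc, smul_smul]⟩
    obtain ⟨c, hc⟩ := hall z hz
    exact hzn c hc

/-- the standard basis -/
noncomputable def bas (E : Type*) [Field E] (ι J : Type*) [Fintype ι] [Fintype J] (n : J → ℕ) :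
    Module.Basis (Var ι J n) E (Amb3 E ι n) :=
  (Matrix.stdBasis E (Fin 2) (Fin 2)).prod
    ((Pi.basis fun _ : ι => Matrix.stdBasis E (Fin 2) (Fin 2)).prod
      (Pi.basis fun j : J => Matrix.stdBasis E (Fin (n j)) (Fin (n j))))

omit [IsUltrametricDist E] [CompleteSpace E] in
lemma stdBasis_repr' {m : ℕ} (M : Matrix (Fin m) (Fin m) E) (i j : Fin m) :
    (Matrix.stdBasis E (Fin m) (Fin m)).repr M (i, j) = M i j := by
  simp [Matrix.stdBasis]

omit [IsUltrametricDist E] [CompleteSpace E] in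
lemma bas_repr (X : Amb3 E ι n) (v : Var ι J n) :
    (bas E ι J n).repr X v = entries X.1 X.2.1 X.2.2 v := by
  unfold bas
  rcases v with ⟨a, c⟩ | ⟨i, a, c⟩ | ⟨j, a, c⟩
  · rw [Module.Basis.prod_repr_inl, stdBasis_repr']; rfl
  · rw [Module.Basis.prod_repr_inr, Module.Basis.prod_repr_inl, Pi.basis_repr, stdBasis_repr']; rfl
  · rw [Module.Basis.prod_repr_inr, Module.Basis.prod_repr_inr, Pi.basis_repr, stdBasis_repr']; rfl

end main

end Pool.Agent.Helper27.FM
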