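import Pool.Agent.Helper27.FM.RepLog

/-!
# First order directions, and the closure principle over `ℚ_p`
-/

set_option autoImplicit false
open Matrix Filter Topology

namespace Pool.Agent.Helper27.FM

section

variable (p : ℕ) [hp : Fact p.Prime] {G : Type*} [Group G] {κ : Type*}

/-- `w` is a first order direction: `w = lim p^{-n} (R(g_n) - 1)` with `g_n ∈ U` -/
def IsDir (R : κ → G →* GL (Fin 2) ℚ_[p]) (U : Subgroup G) (w : κ → M2 ℚ_[p]) : Prop :=
  ∃ g : ℕ → G, (∀ n, g n ∈ U) ∧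
    ∀ k, Tendsto (fun n : ℕ => ((p : ℚ_[p]) ^ n)⁻¹ • ((R k (g n) : M2 ℚ_[p]) - 1)) atTop (𝓝 (w k))

variable {p} {R : κ → G →* GL (Fin 2) ℚ_[p]} {U : Subgroup G}

lemma isDir_log {x : G} (hx : x ∈ U) {z : κ → M2 ℚ_[p]} (hz : IsLog p R x z) : IsDir p R U z := by
  refine ⟨fun n => x ^ (p ^ n), fun n => U.pow_mem hx _, fun k => ?_⟩
  refine (hz k).congr fun n => ?_
  rw [map_pow, Units.val_pow_eq_pow_val]

lemma isDir_zero : IsDir p R U 0 := by
  refine ⟨fun _ => 1, fun _ => U.one_mem, fun k => ?_⟩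
  simp

lemma isDir_add {w w' : κ → M2 ℚ_[p]} (h : IsDir p R U w) (h' : IsDir p R U w') :
    IsDir p R U (w + w') := by
  obtain ⟨g, hg, hl⟩ := h
  obtain ⟨g', hg', hl'⟩ := h'
  refine ⟨fun n => g n * g' n, fun n => U.mul_mem (hg n) (hg' n), fun k => ?_⟩
  have h1 := tendsto_one_of_log p (hl' k)
  have h2 := ((hl k).mul h1).add (hl' k)
  rw [mul_one] at h2
  refine h2.congr fun n => ?_
  rw [smul_mul_assoc, ← smul_add, map_mul, Units.val_mul]
  congr 1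
  noncomm_ring

lemma isDir_neg {w : κ → M2 ℚ_[p]} (h : IsDir p R U w) : IsDir p R U (-w) := by
  obtain ⟨g, hg, hl⟩ := h
  refine ⟨fun n => (g n)⁻¹, fun n => U.inv_mem (hg n), fun k => ?_⟩
  have h1 := tendsto_one_of_log p (hl k)
  have h1' : Tendsto (fun n => (((R k (g n))⁻¹ : GL (Fin 2) ℚ_[p]) : M2 ℚ_[p])) atTop (𝓝 1) := by
    have hdet : Tendsto (fun n => (R k (g n) : M2 ℚ_[p]).det) atTop (𝓝 1) := by
      have := (Continuous.matrix_det (continuous_id (X := M2 ℚ_[p]))).tendsto (1 : M2 ℚ_[p])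
      have h2 := this.comp h1
      rw [id, Matrix.det_one] at h2
      exact h2
    have hadj : Tendsto (fun n => (R k (g n) : M2 ℚ_[p]).adjugate) atTop (𝓝 1) := by
      have := (Continuous.matrix_adjugate (continuous_id (X := M2 ℚ_[p]))).tendsto
        (1 : M2 ℚ_[p])
      have h2 := this.comp h1
      rw [id, Matrix.adjugate_one] at h2
      exact h2
    have h3 := (hdet.inv₀ one_ne_zero).smul hadj
    rw [inv_one, one_smul] at h3
    refine h3.congr fun n => ?_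
    rw [Matrix.coe_units_inv, Matrix.inv_def, Ring.inverse_eq_inv']
  have h2 := ((hl k).mul h1').neg
  rw [mul_one] at h2
  refine h2.congr fun n => ?_
  rw [smul_mul_assoc, ← smul_neg, map_inv]
  congr 1
  rw [sub_mul, mul_inv_val, one_mul, neg_sub]

variable (R U) in
/-- the subgroup generated by `p^{-m} w`, `w` a direction -/
def DirGrp : AddSubgroup (κ → M2 ℚ_[p]) where
  carrier := {z | ∃ (m : ℕ) (w : κ → M2 ℚ_[p]), IsDir p R U w ∧ z = ((p : ℚ_[p]) ^ m)⁻¹ • w}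
  zero_mem' := ⟨0, 0, isDir_zero, by simp⟩
  add_mem' := by
    rintro _ _ ⟨m, w, hw, rfl⟩ ⟨m', w', hw', rfl⟩
    have hnat : ∀ (n : ℕ) (v : κ → M2 ℚ_[p]), IsDir p R U v → IsDir p R U ((n : ℚ_[p]) • v) := by
      intro n v hv
      induction n with
      | zero => simpa using isDir_zero
      | succ n ih =>
        rw [Nat.cast_succ, add_smul, one_smul]
        exact isDir_add ih hv
    have hp0 : (p : ℚ_[p]) ≠ 0 := p_ne_zero' p
    refine ⟨m + m', ((p ^ m' : ℕ) : ℚ_[p]) • w + ((p ^ m : ℕ) : ℚ_[p]) • w',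
      isDir_add (hnat _ _ hw) (hnat _ _ hw'), ?_⟩
    rw [smul_add, smul_smul, smul_smul]
    push_cast
    congr 2
    · rw [pow_add]; field_simp
    · rw [pow_add]; field_simp
  neg_mem' := by
    rintro _ ⟨m, w, hw, rfl⟩
    exact ⟨m, -w, isDir_neg hw, by rw [smul_neg]⟩

lemma padic_dense (c : ℚ_[p]) :
    c ∈ closure {q : ℚ_[p] | ∃ (n r : ℕ), q = ((p : ℚ_[p]) ^ r)⁻¹ * (n : ℚ_[p])} := by
  have hp0 : (p : ℚ_[p]) ≠ 0 := p_ne_zero' p
  obtain ⟨r, hr⟩ : ∃ r : ℕ, ‖(p : ℚ_[p]) ^ r * c‖ ≤ 1 := by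
    have h1 : Tendsto (fun r : ℕ => (p : ℚ_[p]) ^ r * c) atTop (𝓝 (0 * c)) :=
      (tendsto_pow_atTop_nhds_zero_of_norm_lt_one (norm_p_lt_one p)).mul_const c
    rw [zero_mul] at h1
    have h2 := h1.norm
    rw [norm_zero] at h2
    exact ((h2.eventually (gt_mem_nhds one_pos)).exists).imp fun r hr => hr.le
  set u : ℤ_[p] := ⟨(p : ℚ_[p]) ^ r * c, hr⟩ with hu
  have h1 : u ∈ closure (Set.range (Nat.cast : ℕ → ℤ_[p])) := PadicInt.denseRange_natCast u
  have hcont : Continuous (fun v : ℤ_[p] => ((p : ℚ_[p]) ^ r)⁻¹ * (v : ℚ_[p])) := by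
    have hv : Continuous (fun v : ℤ_[p] => (v : ℚ_[p])) := continuous_subtype_val
    exact continuous_const.mul hv
  have h2 := map_mem_closure hcont h1
    (t := {q : ℚ_[p] | ∃ (n r : ℕ), q = ((p : ℚ_[p]) ^ r)⁻¹ * (n : ℚ_[p])}) (by
      rintro _ ⟨n, rfl⟩
      exact ⟨n, r, by simp⟩)
  have h3 : ((p : ℚ_[p]) ^ r)⁻¹ * (u : ℚ_[p]) = c := by
    rw [hu]
    change ((p : ℚ_[p]) ^ r)⁻¹ * ((p : ℚ_[p]) ^ r * c) = c
    rw [← mul_assoc, inv_mul_cancel₀ (pow_ne_zero _ hp0), one_mul]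
  rwa [h3] at h2

/-- the Lie span is contained in the closure of the scaled directions -/
theorem LSp_le_closure {z : κ → M2 ℚ_[p]} (hz : z ∈ LSp p R U) :
    z ∈ closure (DirGrp R U : Set (κ → M2 ℚ_[p])) := by
  have hgrp : closure (DirGrp R U : Set (κ → M2 ℚ_[p])) = (DirGrp R U).topologicalClosure := rfl
  rw [hgrp]
  unfold LSp at hz
  induction hz using Submodule.span_induction with
  | mem z hz =>
    obtain ⟨x, hx, hz⟩ := hz
    apply subset_closure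
    exact ⟨0, z, isDir_log hx hz, by simp⟩
  | zero => exact AddSubgroup.zero_mem _
  | add a b _ _ ha hb => exact AddSubgroup.add_mem _ ha hb
  | smul c a _ ha =>
    refine map_mem_closure₂ (f := fun (c : ℚ_[p]) (v : κ → M2 ℚ_[p]) => c • v)
      continuous_smul (padic_dense c) ha ?_
    rintro _ ⟨n, r, rfl⟩ _ ⟨m, w, hw, rfl⟩
    have h1 : ((p : ℚ_[p]) ^ r)⁻¹ • w ∈ DirGrp R U := ⟨r, w, hw, rfl⟩
    have hp0 : (p : ℚ_[p]) ≠ 0 := p_ne_zero' p
    have h2 : ((p : ℚ_[p]) ^ (r + m))⁻¹ • w ∈ DirGrp R U := ⟨r + m, w, hw, rfl⟩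
    have h3 := (DirGrp R U).nsmul_mem h2 n
    have e : (((p : ℚ_[p]) ^ r)⁻¹ * (n : ℚ_[p])) • ((p : ℚ_[p]) ^ m)⁻¹ • w =
        n • ((p : ℚ_[p]) ^ (r + m))⁻¹ • w := by
      rw [← Nat.cast_smul_eq_nsmul ℚ_[p], smul_smul, smul_smul]
      congr 1
      rw [pow_add]; field_simp
    change (((p : ℚ_[p]) ^ r)⁻¹ * (n : ℚ_[p])) • ((p : ℚ_[p]) ^ m)⁻¹ • w ∈ _
    rw [e]
    exact h3

/-- a closed scaling invariant condition satisfied by all directions holds on the Lie span -/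
theorem closed_principle {F : Set (κ → M2 ℚ_[p])} (hF : IsClosed F)
    (hscale : ∀ w ∈ F, ∀ m : ℕ, ((p : ℚ_[p]) ^ m)⁻¹ • w ∈ F)
    (hdir : ∀ w, IsDir p R U w → w ∈ F) {z : κ → M2 ℚ_[p]} (hz : z ∈ LSp p R U) : z ∈ F := by
  refine closure_minimal ?_ hF (LSp_le_closure hz)
  rintro _ ⟨m, w, hw, rfl⟩
  exact hscale w (hdir w hw) m

end

end Pool.Agent.Helper27.FM
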