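import Pool.Agent.Helper27.FM.Defs
import Pool.Agent.Helper27.FM.Slog

/-!
# Twists
-/

set_option autoImplicit false
open Matrix Filter Topology

namespace Pool.Agent.Helper27.FM

lemma strIrr_iff {E : Type*} [Field E] {G : Type*} [Group G] [TopologicalSpace G]
    (V : G →* GL (Fin 2) E) : StronglyIrreducible V ↔ StrIrr V := Iff.rfl

lemma isTwist_of {E : Type*} [NormedField E] {G : Type*} [Group G] [TopologicalSpace G]
    {W V : G →* GL (Fin 2) E} (hW : Continuous W) (hV : Continuous V) {h : GL (Fin 2) E}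
    (hh : ∀ g, ∃ c : E, (W g : M2 E) = c • cj h (V g)) : IsTwist W V := by
  choose c hc using hh
  have hcj : ∀ g, cj h (V g : M2 E) = ((h * V g * h⁻¹ : GL (Fin 2) E) : M2 E) := by
    intro g; unfold cj; rw [Units.val_mul, Units.val_mul]
  have hinv : ∀ g, (W g : M2 E) * (((h * V g * h⁻¹)⁻¹ : GL (Fin 2) E) : M2 E) =
      c g • (1 : M2 E) := by
    intro g
    rw [hc, hcj, smul_mul_assoc, mul_inv_val]
  have hne : ∀ g, c g ≠ 0 := by
    intro g h0
    have h1 := hc g
    rw [h0, zero_smul] at h1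
    have h2 := mul_inv_val (W g)
    rw [h1, zero_mul] at h2
    exact zero_ne_one h2
  have hcval : ∀ g, c g = ((W g : M2 E) * (((h * V g * h⁻¹)⁻¹ : GL (Fin 2) E) : M2 E)) 0 0 := by
    intro g
    rw [hinv g]; simp
  have hmul : ∀ g g', c (g * g') = c g * c g' := by
    intro g g'
    have h1 : c (g * g') • (1 : M2 E) = (c g * c g') • (1 : M2 E) := by
      rw [← hinv (g * g'), map_mul, map_mul]
      have e : (((h * (V g * V g') * h⁻¹)⁻¹ : GL (Fin 2) E) : M2 E) =
          (((h * V g' * h⁻¹)⁻¹ : GL (Fin 2) E) : M2 E) *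
          (((h * V g * h⁻¹)⁻¹ : GL (Fin 2) E) : M2 E) := by
        rw [← Units.val_mul]; congr 1; group
      rw [e, Units.val_mul]
      calc (W g : M2 E) * (W g' : M2 E) * ((((h * V g' * h⁻¹)⁻¹ : GL (Fin 2) E) : M2 E) *
            (((h * V g * h⁻¹)⁻¹ : GL (Fin 2) E) : M2 E))
          = (W g : M2 E) * ((W g' : M2 E) * (((h * V g' * h⁻¹)⁻¹ : GL (Fin 2) E) : M2 E)) *
            (((h * V g * h⁻¹)⁻¹ : GL (Fin 2) E) : M2 E) := by noncomm_ring
        _ = c g' • ((W g : M2 E) * (((h * V g * h⁻¹)⁻¹ : GL (Fin 2) E) : M2 E)) := by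
            rw [hinv g', mul_smul_comm, mul_one, smul_mul_assoc]
        _ = _ := by rw [hinv g, smul_smul, mul_comm]
    have h2 := congrFun (congrFun h1 0) 0
    simpa using h2
  have hone : c 1 = 1 := by
    have := hmul 1 1
    rw [one_mul] at this
    exact (mul_right_cancel₀ (hne 1) (by rw [one_mul]; exact this)).symm
  let χ : G →* Eˣ :=
    { toFun := fun g => Units.mk0 (c g) (hne g)
      map_one' := by ext; exact hone
      map_mul' := by intro a b; ext; exact hmul a b }
  have hcc : Continuous c := by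
    have h1 : Continuous (fun g => (W g : M2 E) *
        (((h * V g * h⁻¹)⁻¹ : GL (Fin 2) E) : M2 E)) := by
      apply (Units.continuous_val.comp hW).mul
      exact Units.continuous_val.comp
        (((continuous_const.mul hV).mul continuous_const).inv)
    have h2 := h1.matrix_elem 0 0
    exact h2.congr (fun g => (hcval g).symm)
  refine ⟨χ, h, ?_, fun g => ?_⟩
  · rw [Units.continuous_iff]
    refine ⟨hcc, ?_⟩
    have : (fun g => ((χ g)⁻¹ : Eˣ).val) = fun g => (c g)⁻¹ := by
      funext g; rfl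
    change Continuous (fun g => ((χ g)⁻¹ : Eˣ).val)
    rw [this]
    exact hcc.inv₀ hne
  · rw [hc g, hcj g]
    rfl

end Pool.Agent.Helper27.FM
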