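import Pool.Agent.Helper27.FM.Defs

/-!
# Definitions: occurrence of the adjoint representation; entries of a tuple of matrices
-/

set_option autoImplicit false

namespace Pool.Agent.Helper27.FM

variable {E : Type*} [Field E] {G : Type*} [Group G]

/-- The trace zero adjoint representation `ad⁰ V` of a two-dimensional representation `V` occurs in
`End(σ)`: there are a subspace `B` of the matrices of size `m` and a nonzero linear map `f` from
`B` to the trace zero matrices of size `2` such that for `b ∈ B` also `σ(g) b σ(g)⁻¹ ∈ B`, and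
`f (σ(g) b σ(g)⁻¹) = V(g) f(b) V(g)⁻¹`. -/
def AdOccurs (V : G →* GL (Fin 2) E) {m : ℕ} (σ : G →* GL (Fin m) E) : Prop :=
  ∃ (B : Submodule E (Matrix (Fin m) (Fin m) E)) (f : B →ₗ[E] Matrix (Fin 2) (Fin 2) E),
    f ≠ 0 ∧ (∀ b : B, (f b).trace = 0) ∧
    ∀ (g : G) (b : B), ∃ b' : B,
      (b' : Matrix (Fin m) (Fin m) E) =
        (σ g : Matrix (Fin m) (Fin m) E) * b * ((σ g)⁻¹ : GL (Fin m) E) ∧
      f b' = (V g : Matrix (Fin 2) (Fin 2) E) * f b * ((V g)⁻¹ : GL (Fin 2) E)

/-- The index set of the entries of a matrix `x` of size `2`, of matrices `y i` (`i : ι`) of size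
`2`, and of matrices `z j` (`j : J`) of size `n j`. -/
abbrev Var (ι J : Type*) (n : J → ℕ) : Type _ :=
  (Fin 2 × Fin 2) ⊕ ((Σ _ : ι, Fin 2 × Fin 2) ⊕ (Σ j : J, Fin (n j) × Fin (n j)))

/-- The entries of `x`, `y i`, `z j`. -/
def entries {ι J : Type*} {n : J → ℕ} (x : Matrix (Fin 2) (Fin 2) E)
    (y : ι → Matrix (Fin 2) (Fin 2) E) (z : ∀ j : J, Matrix (Fin (n j)) (Fin (n j)) E) :
    Var ι J n → E
  | .inl a => x a.1 a.2
  | .inr (.inl a) => y a.1 a.2.1 a.2.2
  | .inr (.inr a) => z a.1 a.2.1 a.2.2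

end Pool.Agent.Helper27.FM
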