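import Pool.Agent.Helper27.FM.Mat

/-!
# Goursat lemma for sl_2
-/

set_option autoImplicit false
open Matrix Module

namespace Pool.Agent.Helper27.FM

variable {E : Type*} [Field E] {G : Type*} [Group G] {ι : Type*}

/-- the ambient algebra -/
abbrev Amb (E : Type*) (ι : Type*) := M2 E × (ι → M2 E)

/-- conjugation -/
def cj (g : GL (Fin 2) E) (a : M2 E) : M2 E := (g : M2 E) * a * ((g⁻¹ : GL (Fin 2) E) : M2 E)

lemma inv_mul_val (g : GL (Fin 2) E) : ((g⁻¹ : GL (Fin 2) E) : M2 E) * (g : M2 E) = 1 := by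
  rw [← Units.val_mul, inv_mul_cancel, Units.val_one]

lemma mul_inv_val (g : GL (Fin 2) E) : (g : M2 E) * ((g⁻¹ : GL (Fin 2) E) : M2 E) = 1 := by
  rw [← Units.val_mul, mul_inv_cancel, Units.val_one]

lemma cj_mul (g : GL (Fin 2) E) (a b : M2 E) : cj g (a * b) = cj g a * cj g b := by
  unfold cj
  calc (g : M2 E) * (a * b) * ((g⁻¹ : GL (Fin 2) E) : M2 E)
      = (g : M2 E) * a * 1 * b * ((g⁻¹ : GL (Fin 2) E) : M2 E) := by noncomm_ring
    _ = _ := by rw [← inv_mul_val g]; noncomm_ring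

lemma cj_add (g : GL (Fin 2) E) (a b : M2 E) : cj g (a + b) = cj g a + cj g b := by
  unfold cj; noncomm_ring

lemma cj_sub (g : GL (Fin 2) E) (a b : M2 E) : cj g (a - b) = cj g a - cj g b := by
  unfold cj; noncomm_ring

lemma cj_smul (g : GL (Fin 2) E) (c : E) (a : M2 E) : cj g (c • a) = c • cj g a := by
  unfold cj; simp

lemma cj_one (g : GL (Fin 2) E) : cj g 1 = 1 := by
  unfold cj; rw [mul_one, mul_inv_val]

lemma trace_cj (g : GL (Fin 2) E) (a : M2 E) : (cj g a).trace = a.trace := trace_conj g a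

/-- the only conjugation stable subspaces of `sl_2` are the trivial ones -/
def AdSimple (V : G →* GL (Fin 2) E) : Prop :=
  ∀ W : Submodule E (M2 E), (∀ a ∈ W, a.trace = 0) → (∀ g, ∀ a ∈ W, cj (V g) a ∈ W) →
    (∃ a ∈ W, a ≠ 0) → ∀ a : M2 E, a.trace = 0 → a ∈ W

/-- conjugation on the ambient algebra -/
def adj (V : G →* GL (Fin 2) E) (ρ : ι → G →* GL (Fin 2) E) (g : G) (z : Amb E ι) : Amb E ι :=
  (cj (V g) z.1, fun i => cj (ρ i g) (z.2 i))

section
variable (V : G →* GL (Fin 2) E) (ρ : ι → G →* GL (Fin 2) E)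

lemma adj_mul (g : G) (a b : Amb E ι) : adj V ρ g (a * b) = adj V ρ g a * adj V ρ g b := by
  unfold adj
  ext1
  · exact cj_mul _ _ _
  · funext i; exact cj_mul _ _ _

lemma adj_add (g : G) (a b : Amb E ι) : adj V ρ g (a + b) = adj V ρ g a + adj V ρ g b := by
  unfold adj
  ext1
  · exact cj_add _ _ _
  · funext i; exact cj_add _ _ _

lemma adj_sub (g : G) (a b : Amb E ι) : adj V ρ g (a - b) = adj V ρ g a - adj V ρ g b := by
  unfold adj
  ext1
  · exact cj_sub _ _ _
  · funext i; exact cj_sub _ _ _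

lemma adj_smul (g : G) (c : E) (a : Amb E ι) : adj V ρ g (c • a) = c • adj V ρ g a := by
  unfold adj
  ext1
  · exact cj_smul _ _ _
  · funext i; exact cj_smul _ _ _

lemma adj_zero (g : G) : adj V ρ g (0 : Amb E ι) = 0 := by
  have := adj_smul V ρ g (0 : E) 0
  simpa using this

end

/-- the span of brackets -/
def Der (𝔥 : Submodule E (Amb E ι)) : Submodule E (Amb E ι) :=
  Submodule.span E {z | ∃ a ∈ 𝔥, ∃ b ∈ 𝔥, z = a * b - b * a}

lemma Der_le {𝔥 : Submodule E (Amb E ι)} (hbr : ∀ a ∈ 𝔥, ∀ b ∈ 𝔥, a * b - b * a ∈ 𝔥) :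
    Der 𝔥 ≤ 𝔥 := by
  apply Submodule.span_le.mpr
  rintro _ ⟨a, ha, b, hb, rfl⟩
  exact hbr a ha b hb

lemma mem_Der {𝔥 : Submodule E (Amb E ι)} {a b : Amb E ι} (ha : a ∈ 𝔥) (hb : b ∈ 𝔥) :
    a * b - b * a ∈ Der 𝔥 := Submodule.subset_span ⟨a, ha, b, hb, rfl⟩

lemma Der_trace {𝔥 : Submodule E (Amb E ι)} {z : Amb E ι} (hz : z ∈ Der 𝔥) :
    z.1.trace = 0 ∧ ∀ i, (z.2 i).trace = 0 := by
  unfold Der at hz
  induction hz using Submodule.span_induction with
  | mem x hx =>
    obtain ⟨a, -, b, -, rfl⟩ := hx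
    exact ⟨trace_bracket _ _, fun i => trace_bracket _ _⟩
  | zero => simp
  | add x y _ _ hx hy =>
    exact ⟨by simp [Matrix.trace_add, hx.1, hy.1], fun i => by
      simp [Matrix.trace_add, hx.2 i, hy.2 i]⟩
  | smul c x _ hx =>
    exact ⟨by simp [Matrix.trace_smul, hx.1], fun i => by
      simp [Matrix.trace_smul, hx.2 i]⟩

lemma Der_adj {V : G →* GL (Fin 2) E} {ρ : ι → G →* GL (Fin 2) E} {𝔥 : Submodule E (Amb E ι)}
    (hAd : ∀ g, ∀ a ∈ 𝔥, adj V ρ g a ∈ 𝔥) (g : G) {z : Amb E ι} (hz : z ∈ Der 𝔥) :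
    adj V ρ g z ∈ Der 𝔥 := by
  have hz' := hz
  unfold Der at hz'
  induction hz' using Submodule.span_induction with
  | mem x hx =>
    obtain ⟨a, ha, b, hb, rfl⟩ := hx
    rw [adj_sub, adj_mul, adj_mul]
    exact mem_Der (hAd g a ha) (hAd g b hb)
  | zero => rw [adj_zero]; exact Submodule.zero_mem _
  | add x y hx hy h1 h2 =>
    rw [adj_add]
    exact Submodule.add_mem _ (h1 hx) (h2 hy)
  | smul c x hx h1 =>
    rw [adj_smul]
    exact Submodule.smul_mem _ _ (h1 hx)

/-- elements of `C` vanishing at the coordinates in `s` -/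
def Van (C : Submodule E (Amb E ι)) (s : Set ι) : Submodule E (Amb E ι) where
  carrier := {z | z ∈ C ∧ ∀ i ∈ s, z.2 i = 0}
  add_mem' := by
    rintro a b ⟨ha, ha'⟩ ⟨hb, hb'⟩
    exact ⟨C.add_mem ha hb, fun i hi => by simp [ha' i hi, hb' i hi]⟩
  zero_mem' := ⟨C.zero_mem, fun i _ => rfl⟩
  smul_mem' := by
    rintro c a ⟨ha, ha'⟩
    exact ⟨C.smul_mem c ha, fun i hi => by simp [ha' i hi]⟩

lemma Van_full {V : G →* GL (Fin 2) E} {ρ : ι → G →* GL (Fin 2) E} (hV : AdSimple V)
    {𝔥 : Submodule E (Amb E ι)} (hAd : ∀ g, ∀ a ∈ 𝔥, adj V ρ g a ∈ 𝔥) (s : Set ι)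
    (hne : ∃ z ∈ Van (Der 𝔥) s, z.1 ≠ 0) (x : M2 E) (hx : x.trace = 0) :
    ∃ z ∈ Van (Der 𝔥) s, z.1 = x := by
  have := hV ((Van (Der 𝔥) s).map (LinearMap.fst E (M2 E) (ι → M2 E))) ?_ ?_ ?_ x hx
  · obtain ⟨z, hz, rfl⟩ := this
    exact ⟨z, hz, rfl⟩
  · rintro _ ⟨z, hz, rfl⟩
    exact (Der_trace hz.1).1
  · rintro g _ ⟨z, hz, rfl⟩
    refine ⟨adj V ρ g z, ⟨Der_adj hAd g hz.1, fun i hi => ?_⟩, rfl⟩
    change cj _ (z.2 i) = 0
    rw [hz.2 i hi]
    unfold cj; simp
  · obtain ⟨z, hz, h0⟩ := hne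
    exact ⟨z.1, ⟨z, hz, rfl⟩, h0⟩

/-- trace free part -/
def dev [CharZero E] : M2 E →ₗ[E] M2 E :=
  LinearMap.id - (LinearMap.toSpanSingleton E (M2 E) 1).comp ((2 : E)⁻¹ • Matrix.traceLinearMap (Fin 2) E E)

lemma dev_apply [CharZero E] (a : M2 E) : dev a = a - ((2 : E)⁻¹ * a.trace) • (1 : M2 E) := by
  simp [dev]

lemma trace_dev [CharZero E] (a : M2 E) : (dev a).trace = 0 := by
  rw [dev_apply]
  simp only [Matrix.trace_sub, Matrix.trace_smul, Matrix.trace_one, Fintype.card_fin, smul_eq_mul]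
  push_cast
  ring

lemma efne : (single 0 1 1 : M2 E) * single 1 0 1 - single 1 0 1 * single 0 1 1 ≠ 0 := by
  intro h
  have := congrFun (congrFun h 0) 0
  simp [Matrix.single, Matrix.mul_apply] at this

lemma base_ne [CharZero E] {V : G →* GL (Fin 2) E} {ρ : ι → G →* GL (Fin 2) E} (hV : AdSimple V)
    {𝔥 : Submodule E (Amb E ι)} (hAd : ∀ g, ∀ a ∈ 𝔥, adj V ρ g a ∈ 𝔥)
    (hns : ∃ a ∈ 𝔥, ∀ c : E, a.1 ≠ c • (1 : M2 E)) :
    ∃ z ∈ Der 𝔥, z.1 ≠ 0 := by
  have full : ∀ x : M2 E, x.trace = 0 → ∃ a ∈ 𝔥, dev a.1 = x := by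
    intro x hx
    have := hV ((𝔥.map (LinearMap.fst E (M2 E) (ι → M2 E))).map dev) ?_ ?_ ?_ x hx
    · obtain ⟨_, ⟨z, hz, rfl⟩, rfl⟩ := this
      exact ⟨z, hz, rfl⟩
    · rintro _ ⟨_, ⟨z, hz, rfl⟩, rfl⟩
      exact trace_dev _
    · rintro g _ ⟨_, ⟨z, hz, rfl⟩, rfl⟩
      refine ⟨_, ⟨adj V ρ g z, hAd g z hz, rfl⟩, ?_⟩
      simp only [LinearMap.fst_apply, dev_apply, adj]
      rw [cj_sub, cj_smul, cj_one, trace_cj]
    · obtain ⟨a, ha, h⟩ := hns
      refine ⟨dev a.1, ⟨_, ⟨a, ha, rfl⟩, rfl⟩, fun h0 => ?_⟩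
      rw [dev_apply, sub_eq_zero] at h0
      exact h _ h0
  obtain ⟨a, ha, ha'⟩ := full (single 0 1 1) (by simp [tr_def])
  obtain ⟨b, hb, hb'⟩ := full (single 1 0 1) (by simp [tr_def])
  refine ⟨a * b - b * a, mem_Der ha hb, ?_⟩
  rw [dev_apply, sub_eq_iff_eq_add] at ha' hb'
  change a.1 * b.1 - b.1 * a.1 ≠ 0
  have gen : ∀ (u v : M2 E) (α β : E), (u + α • (1 : M2 E)) * (v + β • (1 : M2 E)) -
      (v + β • (1 : M2 E)) * (u + α • (1 : M2 E)) = u * v - v * u := by
    intro u v α β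
    simp only [add_mul, mul_add, smul_mul_assoc, mul_smul_comm, one_mul, mul_one, smul_add]
    rw [smul_comm α β]
    abel
  rw [ha', hb', gen]
  exact efne

/-- a linear bijection between traceless matrices preserving brackets extends to an inner
automorphism -/
lemma inner_of_bracket [CharZero E] (T : M2 E →ₗ[E] M2 E) (hinj : Function.Injective T)
    (h1 : T 1 = 1) (htr : ∀ a, a.trace = 0 → (T a).trace = 0)
    (hbr : ∀ a b : M2 E, a.trace = 0 → b.trace = 0 → T (a * b - b * a) = T a * T b - T b * T a) :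
    ∃ h : GL (Fin 2) E, ∀ m, T m = cj h m := by
  have hdet : ∀ a : M2 E, a.trace = 0 → (T a).det = a.det := by
    intro a ha
    by_contra hne
    have key : ∀ b : M2 E, b.trace = 0 → ∃ c : E, b = c • a := by
      intro b hb
      have e1 := double_bracket ha hb
      have e2 := double_bracket (htr a ha) (htr b hb)
      have e3 : T (a * (a * b - b * a) - (a * b - b * a) * a) =
          T a * (T a * T b - T b * T a) - (T a * T b - T b * T a) * T a := by
        rw [hbr a _ ha (trace_bracket a b), hbr a b ha hb]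
      rw [e1, e2, map_add, map_smul, map_smul] at e3
      have e4 : T ((-4 * a.det - -4 * (T a).det) • b +
          (-2 * (a * b).trace - -2 * (T a * T b).trace) • a) = 0 := by
        rw [map_add, map_smul, map_smul, sub_smul, sub_smul]
        rw [← sub_eq_zero] at e3
        rw [← e3]; abel
      have e5 := hinj (e4.trans (map_zero T).symm)
      have hd : (-4 * a.det - -4 * (T a).det) ≠ 0 := by
        intro h
        apply hne
        have : (4 : E) * ((T a).det - a.det) = 0 := by linear_combination h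
        rcases mul_eq_zero.mp this with h4 | h4
        · exact absurd h4 (by norm_num)
        · exact sub_eq_zero.mp h4
      refine ⟨-(-4 * a.det - -4 * (T a).det)⁻¹ *
        (-2 * (a * b).trace - -2 * (T a * T b).trace), ?_⟩
      have e6 : (-4 * a.det - -4 * (T a).det) • b =
          -((-2 * (a * b).trace - -2 * (T a * T b).trace) • a) := eq_neg_of_add_eq_zero_left e5
      calc b = (-4 * a.det - -4 * (T a).det)⁻¹ • ((-4 * a.det - -4 * (T a).det) • b) := by
            rw [smul_smul, inv_mul_cancel₀ hd, one_smul]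
        _ = _ := by
            rw [e6, smul_neg, smul_smul]
            simp only [neg_mul, neg_smul, neg_neg]
    obtain ⟨c, hc⟩ := key (single 0 1 1) (by simp [tr_def])
    obtain ⟨c', hc'⟩ := key (single 1 0 1) (by simp [tr_def])
    have a1 := congrFun (congrFun hc 0) 1
    have a2 := congrFun (congrFun hc 1) 0
    have a3 := congrFun (congrFun hc' 1) 0
    simp [Matrix.single] at a1 a2 a3
    rcases a2 with h | h
    · rw [h] at a1; simp at a1
    · rw [h] at a3; simp at a3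
  have htr2 : ∀ a b : M2 E, a.trace = 0 → b.trace = 0 → (T a * T b).trace = (a * b).trace := by
    intro a b ha hb
    have hab : (a + b).trace = 0 := by rw [Matrix.trace_add, ha, hb, add_zero]
    rw [det_add_traceless (htr a ha) (htr b hb), det_add_traceless ha hb, ← map_add,
      hdet _ hab, hdet a ha, hdet b hb]
  have hmul0 : ∀ a b : M2 E, a.trace = 0 → b.trace = 0 → T (a * b) = T a * T b := by
    intro a b ha hb
    have e1 : (2 : E) • (a * b) = (a * b).trace • (1 : M2 E) + (a * b - b * a) := by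
      rw [← polar ha hb, two_smul]; abel
    have e2 : (2 : E) • (T a * T b) = (T a * T b).trace • (1 : M2 E) + (T a * T b - T b * T a) := by
      rw [← polar (htr a ha) (htr b hb), two_smul]; abel
    have e3 : (2 : E) • T (a * b) = (2 : E) • (T a * T b) := by
      rw [← map_smul, e1, e2, map_add, map_smul, h1, hbr a b ha hb, htr2 a b ha hb]
    exact smul_right_injective _ (two_ne_zero (α := E)) e3
  have hmul : ∀ a b : M2 E, T (a * b) = T a * T b := by
    intro a b
    have ha : a = dev a + ((2 : E)⁻¹ * a.trace) • (1 : M2 E) := by rw [dev_apply]; abel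
    have hb : b = dev b + ((2 : E)⁻¹ * b.trace) • (1 : M2 E) := by rw [dev_apply]; abel
    rw [ha, hb]
    simp only [add_mul, mul_add, smul_mul_assoc, mul_smul_comm, one_mul, mul_one, map_add,
      map_smul, h1, hmul0 _ _ (trace_dev a) (trace_dev b)]
  exact inner_of_mul T h1 hmul

/-- every traceless matrix is a combination of the standard triple -/
lemma traceless_eq [CharZero E] {a : M2 E} (ha : a.trace = 0) :
    a = a 0 1 • single 0 1 1 + a 1 0 • single 1 0 1 +
      a 0 0 • (single 0 0 1 - single 1 1 1 : M2 E) := by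
  rw [tr_def] at ha
  have ha' : a 1 1 = - a 0 0 := by linear_combination ha
  apply ext2 <;> simp [Matrix.single, ha']

theorem goursat [CharZero E] [Finite ι] (V : G →* GL (Fin 2) E) (ρ : ι → G →* GL (Fin 2) E)
    (hV : AdSimple V) (𝔥 : Submodule E (Amb E ι)) (hbr : ∀ a ∈ 𝔥, ∀ b ∈ 𝔥, a * b - b * a ∈ 𝔥)
    (hAd : ∀ g, ∀ a ∈ 𝔥, adj V ρ g a ∈ 𝔥)
    (hns : ∃ a ∈ 𝔥, ∀ c : E, a.1 ≠ c • (1 : M2 E)) :
    (∃ i, ∃ h : GL (Fin 2) E, ∀ g, ∃ c : E, (V g : M2 E) = c • cj h (ρ i g)) ∨
      ∀ x : M2 E, x.trace = 0 → ((x, 0) : Amb E ι) ∈ 𝔥 := by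
  classical
  by_cases hcase : ∀ i, ∃ z ∈ Van (Der 𝔥) {i}, z.1 ≠ 0
  · right
    have P : ∀ s : Set ι, s.Finite → ∃ z ∈ Van (Der 𝔥) s, z.1 ≠ 0 := by
      intro s hs
      induction s, hs using Set.Finite.induction_on with
      | empty =>
        obtain ⟨z, hz, h0⟩ := base_ne hV hAd hns
        exact ⟨z, ⟨hz, fun i hi => absurd hi (Set.notMem_empty i)⟩, h0⟩
      | @insert i s _ _ ih =>
        obtain ⟨x, hx, hx'⟩ := Van_full hV hAd s ih (single 0 1 1) (by simp [tr_def])
        obtain ⟨y, hy, hy'⟩ := Van_full hV hAd {i} (hcase i) (single 1 0 1) (by simp [tr_def])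
        refine ⟨x * y - y * x, ⟨mem_Der (Der_le hbr hx.1) (Der_le hbr hy.1), ?_⟩, ?_⟩
        · intro j hj
          change x.2 j * y.2 j - y.2 j * x.2 j = 0
          rcases hj with hj | hj
          · subst hj
            rw [hy.2 j rfl]; simp
          · rw [hx.2 j hj]; simp
        · change x.1 * y.1 - y.1 * x.1 ≠ 0
          rw [hx', hy']
          exact efne
    intro x hx
    obtain ⟨z, hz, hz'⟩ := Van_full hV hAd Set.univ (P _ Set.finite_univ) x hx
    have : z = (x, 0) := by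
      ext1
      · exact hz'
      · funext i; exact hz.2 i trivial
    rw [← this]
    exact Der_le hbr hz.1
  · left
    push Not at hcase
    obtain ⟨i, hi⟩ := hcase
    refine ⟨i, ?_⟩
    have full0 : ∀ x : M2 E, x.trace = 0 → ∃ z ∈ Der 𝔥, z.1 = x := by
      intro x hx
      obtain ⟨z, hz, hz'⟩ := Van_full hV hAd ∅ (by
        obtain ⟨z, hz, h0⟩ := base_ne hV hAd hns
        exact ⟨z, ⟨hz, fun i hi => absurd hi (Set.notMem_empty i)⟩, h0⟩) x hx
      exact ⟨z, hz.1, hz'⟩
    -- projections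
    set Φ : Amb E ι →ₗ[E] M2 E := (LinearMap.proj i).comp (LinearMap.snd E (M2 E) (ι → M2 E))
      with hΦ
    set Ψ : Amb E ι →ₗ[E] M2 E := LinearMap.fst E (M2 E) (ι → M2 E) with hΨ
    set SL : Submodule E (M2 E) := LinearMap.ker (Matrix.traceLinearMap (Fin 2) E E) with hSL
    have hker : ∀ z ∈ Der 𝔥, Φ z = 0 → Ψ z = 0 := by
      intro z hz h0
      exact hi z ⟨hz, fun j hj => by rw [Set.mem_singleton_iff.mp hj]; exact h0⟩
    -- choose preimages of a basis, build a linear section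
    obtain ⟨ze, hze, hze'⟩ := full0 (single 0 1 1) (by simp [tr_def])
    obtain ⟨zf, hzf, hzf'⟩ := full0 (single 1 0 1) (by simp [tr_def])
    obtain ⟨zh, hzh, hzh'⟩ := full0 (single 0 0 1 - single 1 1 1) (by simp [tr_def, Matrix.single])
    -- S : M2 → M2, the inverse of the desired map
    let co01 : M2 E →ₗ[E] E := Matrix.entryLinearMap E E 0 1
    let co10 : M2 E →ₗ[E] E := Matrix.entryLinearMap E E 1 0
    let co00 : M2 E →ₗ[E] E := Matrix.entryLinearMap E E 0 0
    let tl : M2 E →ₗ[E] E := (2 : E)⁻¹ • Matrix.traceLinearMap (Fin 2) E E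
    let Sec : M2 E →ₗ[E] Amb E ι :=
      (LinearMap.toSpanSingleton E (Amb E ι) ze).comp co01 +
      (LinearMap.toSpanSingleton E (Amb E ι) zf).comp co10 +
      (LinearMap.toSpanSingleton E (Amb E ι) zh).comp (co00 - tl)
    have hSecmem : ∀ m, Sec m ∈ Der 𝔥 := by
      intro m
      simp only [Sec, LinearMap.add_apply, LinearMap.comp_apply,
        LinearMap.toSpanSingleton_apply]
      exact Submodule.add_mem _ (Submodule.add_mem _ (Submodule.smul_mem _ _ hze)
        (Submodule.smul_mem _ _ hzf)) (Submodule.smul_mem _ _ hzh)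
    have hSec1 : ∀ m : M2 E, m.trace = 0 → (Sec m).1 = m := by
      intro m hm
      simp only [Sec, LinearMap.add_apply, LinearMap.comp_apply,
        LinearMap.toSpanSingleton_apply, Prod.fst_add, Prod.smul_fst, hze', hzf', hzh',
        LinearMap.sub_apply, tl, LinearMap.smul_apply, Matrix.traceLinearMap_apply, hm,
        smul_zero, sub_zero]
      exact (traceless_eq hm).symm
    let S : M2 E →ₗ[E] M2 E := Φ.comp Sec + (LinearMap.toSpanSingleton E (M2 E) 1).comp tl
    have hS0 : ∀ m : M2 E, m.trace = 0 → S m = Φ (Sec m) := by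
      intro m hm
      simp [S, tl, hm]
    have hSec_one : Sec 1 = 0 := by
      simp [Sec, co01, co10, co00, tl, Matrix.trace_one]
    have hS1 : S 1 = 1 := by
      simp [S, tl, hSec_one, Matrix.trace_one]
    have hSinj : Function.Injective S := by
      rw [← LinearMap.ker_eq_bot, LinearMap.ker_eq_bot']
      intro m hm
      have htm : (S m).trace = m.trace := by
        have h1 := (Der_trace (hSecmem m)).2 i
        simp only [S, LinearMap.add_apply, LinearMap.comp_apply, Matrix.trace_add,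
          LinearMap.toSpanSingleton_apply, Matrix.trace_smul, Matrix.trace_one]
        have h2 : (Φ (Sec m)).trace = 0 := h1
        rw [h2]
        simp only [tl, LinearMap.smul_apply, Matrix.traceLinearMap_apply, smul_eq_mul,
          Fintype.card_fin, zero_add]
        push_cast
        ring
      have hm0 : m.trace = 0 := by rw [← htm, hm]; simp
      have h1 : Φ (Sec m) = 0 := by rw [← hS0 m hm0, hm]
      have h2 := hker _ (hSecmem m) h1
      have h3 := hSec1 m hm0
      rw [← h3]; exact h2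
    have hSsurj : Function.Surjective S := LinearMap.injective_iff_surjective.mp hSinj
    have hStr : ∀ m, (S m).trace = m.trace := by
      intro m
      have h1 := (Der_trace (hSecmem m)).2 i
      simp only [S, LinearMap.add_apply, LinearMap.comp_apply, Matrix.trace_add,
        LinearMap.toSpanSingleton_apply, Matrix.trace_smul, Matrix.trace_one]
      have h2 : (Φ (Sec m)).trace = 0 := h1
      rw [h2]
      simp only [tl, LinearMap.smul_apply, Matrix.traceLinearMap_apply, smul_eq_mul,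
          Fintype.card_fin, zero_add]
      push_cast
      ring
    -- kernel equality
    have hker2 : ∀ z ∈ Der 𝔥, Ψ z = 0 → Φ z = 0 := by
      intro z hz h0
      have hztr : (Φ z).trace = 0 := (Der_trace hz).2 i
      obtain ⟨m, hm⟩ := hSsurj (Φ z)
      have hm0 : m.trace = 0 := by rw [← hStr, hm, hztr]
      have h1 : Φ (z - Sec m) = 0 := by rw [map_sub, ← hS0 m hm0, hm, sub_self]
      have h2 := hker _ (Submodule.sub_mem _ hz (hSecmem m)) h1
      rw [map_sub, h0, zero_sub, neg_eq_zero] at h2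
      have h3 : m = 0 := by rw [← hSec1 m hm0]; exact h2
      rw [← hm, h3, map_zero]
    have hSz : ∀ z ∈ Der 𝔥, S z.1 = Φ z := by
      intro z hz
      have hztr : z.1.trace = 0 := (Der_trace hz).1
      rw [hS0 _ hztr, ← sub_eq_zero, ← map_sub]
      apply hker2 _ (Submodule.sub_mem _ (hSecmem _) hz)
      rw [map_sub, sub_eq_zero]
      exact hSec1 _ hztr
    have hSbr : ∀ a b : M2 E, a.trace = 0 → b.trace = 0 →
        S (a * b - b * a) = S a * S b - S b * S a := by
      intro a b ha hb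
      have hz : Sec a * Sec b - Sec b * Sec a ∈ Der 𝔥 :=
        mem_Der (Der_le hbr (hSecmem a)) (Der_le hbr (hSecmem b))
      have h1 := hSz _ hz
      have h2 : (Sec a * Sec b - Sec b * Sec a).1 = a * b - b * a := by
        change (Sec a).1 * (Sec b).1 - (Sec b).1 * (Sec a).1 = _
        rw [hSec1 a ha, hSec1 b hb]
      rw [h2] at h1
      rw [h1, hS0 a ha, hS0 b hb]
      rfl
    obtain ⟨h, hh⟩ := inner_of_bracket S hSinj hS1 (fun a ha => by rw [hStr, ha]) hSbr
    -- equivariance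
    have heq : ∀ g, ∀ m : M2 E, cj h (cj (V g) m) = cj (ρ i g) (cj h m) := by
      intro g m
      have h0 : ∀ m : M2 E, m.trace = 0 → cj h (cj (V g) m) = cj (ρ i g) (cj h m) := by
        intro m hm
        have hz : adj V ρ g (Sec m) ∈ Der 𝔥 := Der_adj hAd g (hSecmem m)
        have h1 := hSz _ hz
        have h2 : (adj V ρ g (Sec m)).1 = cj (V g) m := by
          change cj (V g) (Sec m).1 = _
          rw [hSec1 m hm]
        have h3 : Φ (adj V ρ g (Sec m)) = cj (ρ i g) (Φ (Sec m)) := rfl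
        rw [h2, h3, ← hS0 m hm, hh, hh] at h1
        exact h1
      have hm : m = dev m + ((2 : E)⁻¹ * m.trace) • (1 : M2 E) := by rw [dev_apply]; abel
      rw [hm]
      simp only [cj_add, cj_smul, cj_one]
      rw [h0 _ (trace_dev m)]
    refine ⟨h⁻¹, fun g => ?_⟩
    set N : GL (Fin 2) E := (ρ i g * h)⁻¹ * (h * V g) with hN
    have hcomm : ∀ m : M2 E, (N : M2 E) * m = m * (N : M2 E) := by
      intro m
      have e := heq g m
      unfold cj at e
      have e' : ((h * V g : GL (Fin 2) E) : M2 E) * m * (((h * V g)⁻¹ : GL (Fin 2) E) : M2 E) =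
          ((ρ i g * h : GL (Fin 2) E) : M2 E) * m * (((ρ i g * h)⁻¹ : GL (Fin 2) E) : M2 E) := by
        simp only [_root_.mul_inv_rev, Units.val_mul]
        simp only [mul_assoc] at e ⊢
        exact e
      have e2 : (((ρ i g * h)⁻¹ : GL (Fin 2) E) : M2 E) * (((h * V g : GL (Fin 2) E) : M2 E) * m *
          (((h * V g)⁻¹ : GL (Fin 2) E) : M2 E)) * ((h * V g : GL (Fin 2) E) : M2 E) =
          (((ρ i g * h)⁻¹ : GL (Fin 2) E) : M2 E) * (((ρ i g * h : GL (Fin 2) E) : M2 E) * m *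
          (((ρ i g * h)⁻¹ : GL (Fin 2) E) : M2 E)) * ((h * V g : GL (Fin 2) E) : M2 E) := by
        rw [e']
      rw [hN]
      simp only [Units.val_mul (ρ i g * h)⁻¹ (h * V g)]
      calc (((ρ i g * h)⁻¹ : GL (Fin 2) E) : M2 E) * ((h * V g : GL (Fin 2) E) : M2 E) * m
          = (((ρ i g * h)⁻¹ : GL (Fin 2) E) : M2 E) * (((h * V g : GL (Fin 2) E) : M2 E) * m *
            ((((h * V g)⁻¹ : GL (Fin 2) E) : M2 E) * ((h * V g : GL (Fin 2) E) : M2 E))) := by
            rw [inv_mul_val]; noncomm_ring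
        _ = (((ρ i g * h)⁻¹ : GL (Fin 2) E) : M2 E) * (((h * V g : GL (Fin 2) E) : M2 E) * m *
          (((h * V g)⁻¹ : GL (Fin 2) E) : M2 E)) * ((h * V g : GL (Fin 2) E) : M2 E) := by
            noncomm_ring
        _ = (((ρ i g * h)⁻¹ : GL (Fin 2) E) : M2 E) * (((ρ i g * h : GL (Fin 2) E) : M2 E) * m *
          (((ρ i g * h)⁻¹ : GL (Fin 2) E) : M2 E)) * ((h * V g : GL (Fin 2) E) : M2 E) := e2
        _ = (((((ρ i g * h)⁻¹ : GL (Fin 2) E) : M2 E) * ((ρ i g * h : GL (Fin 2) E) : M2 E)) * m) *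
          ((((ρ i g * h)⁻¹ : GL (Fin 2) E) : M2 E) * ((h * V g : GL (Fin 2) E) : M2 E)) := by
            noncomm_ring
        _ = _ := by rw [inv_mul_val, one_mul]
    have hs := scalar_of_commutes hcomm
    refine ⟨(N : M2 E) 0 0, ?_⟩
    have e3 : (V g : M2 E) = ((h⁻¹ * (ρ i g * h) * N : GL (Fin 2) E) : M2 E) := by
      congr 1
      rw [hN]; group
    rw [e3, Units.val_mul, hs]
    simp only [Matrix.smul_apply, smul_eq_mul, Matrix.one_apply_eq, mul_one, mul_smul_comm]
    congr 1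
    unfold cj
    rw [inv_inv, ← Units.val_mul, ← Units.val_mul, mul_assoc]

end Pool.Agent.Helper27.FM
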