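import Pool.Agent.Helper27.FM.Goursat

/-!
# Strongly irreducible representations have simple adjoint action
-/

set_option autoImplicit false
open Matrix Module

namespace Pool.Agent.Helper27.FM

variable {E : Type*} [Field E] {G : Type*} [Group G]

/-- `V` is strongly (absolutely) irreducible: the image of every open subgroup spans
the full matrix algebra -/
def StrIrr [TopologicalSpace G] (V : G →* GL (Fin 2) E) : Prop :=
  ∀ U : Subgroup G, IsOpen (U : Set G) →
    Submodule.span E ((fun g => (V g : M2 E)) '' (U : Set G)) = ⊤

lemma comm_traceless [CharZero E] {a b : M2 E} (ha : a.trace = 0) (hb : b.trace = 0) (h0 : a ≠ 0)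
    (hab : a * b - b * a = 0) : ∃ c : E, b = c • a := by
  rw [tr_def] at ha hb
  have ha' : a 1 1 = - a 0 0 := by linear_combination ha
  have hb' : b 1 1 = - b 0 0 := by linear_combination hb
  have e1 := congrFun (congrFun hab 0) 0
  have e2 := congrFun (congrFun hab 0) 1
  have e3 := congrFun (congrFun hab 1) 0
  simp [Matrix.mul_apply, ha', hb'] at e1 e2 e3
  have f1 : a 0 1 * b 1 0 = b 0 1 * a 1 0 := by linear_combination e1
  have f2 : a 0 0 * b 0 1 = b 0 0 * a 0 1 := by
    have : (2 : E) * (a 0 0 * b 0 1 - b 0 0 * a 0 1) = 0 := by linear_combination e2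
    rcases mul_eq_zero.mp this with h | h
    · norm_num at h
    · linear_combination h
  have f3 : a 0 0 * b 1 0 = b 0 0 * a 1 0 := by
    have : (2 : E) * (a 0 0 * b 1 0 - b 0 0 * a 1 0) = 0 := by linear_combination -e3
    rcases mul_eq_zero.mp this with h | h
    · norm_num at h
    · linear_combination h
  by_cases h00 : a 0 0 = 0
  · by_cases h01 : a 0 1 = 0
    · by_cases h10 : a 1 0 = 0
      · exact absurd (ext2 (by simpa using h00) (by simpa using h01) (by simpa using h10)
          (by simp [ha', h00])) h0
      · refine ⟨b 1 0 / a 1 0, ext2 ?_ ?_ ?_ ?_⟩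
        · simp; field_simp; linear_combination -f3
        · simp; field_simp; linear_combination -f1
        · simp; field_simp
        · simp [ha', hb']; field_simp; linear_combination -f3
    · refine ⟨b 0 1 / a 0 1, ext2 ?_ ?_ ?_ ?_⟩
      · simp; field_simp; linear_combination -f2
      · simp; field_simp
      · simp; field_simp; linear_combination f1
      · simp [ha', hb']; field_simp; linear_combination -f2
  · refine ⟨b 0 0 / a 0 0, ext2 ?_ ?_ ?_ ?_⟩
    · simp; field_simp
    · simp; field_simp; linear_combination f2
    · simp; field_simp; linear_combination f3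
    · simp [ha', hb']; field_simp

lemma det_cj (g : GL (Fin 2) E) (a : M2 E) : (cj g a).det = a.det := by
  unfold cj
  rw [Matrix.det_mul, Matrix.det_mul, mul_right_comm, ← Matrix.det_mul, mul_inv_val,
    Matrix.det_one, one_mul]

lemma cj_eq_iff (g : GL (Fin 2) E) (a b : M2 E) : cj g a = b ↔ (g : M2 E) * a = b * (g : M2 E) := by
  unfold cj
  constructor
  · rintro rfl
    rw [mul_assoc _ _ (g : M2 E), inv_mul_val, mul_one]
  · intro h
    rw [h, mul_assoc, mul_inv_val, mul_one]

lemma cj_mul_left (g h : GL (Fin 2) E) (a : M2 E) : cj (g * h) a = cj g (cj h a) := by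
  unfold cj
  rw [_root_.mul_inv_rev, Units.val_mul, Units.val_mul]
  noncomm_ring

lemma cj_one_left (a : M2 E) : cj (1 : GL (Fin 2) E) a = a := by
  unfold cj; simp

lemma cj_zero (g : GL (Fin 2) E) : cj g (0 : M2 E) = 0 := by
  unfold cj; simp

lemma cj_neg (g : GL (Fin 2) E) (a : M2 E) : cj g (-a) = - cj g a := by
  unfold cj; simp

section
variable [CharZero E] [TopologicalSpace E] [IsTopologicalRing E] [T2Space E] [TopologicalSpace G]

lemma continuous_coe {V : G →* GL (Fin 2) E} (hc : Continuous V) :
    Continuous (fun g => (V g : M2 E)) := Units.continuous_val.comp hc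

lemma continuous_coe_inv {V : G →* GL (Fin 2) E} (hc : Continuous V) :
    Continuous (fun g => (((V g)⁻¹ : GL (Fin 2) E) : M2 E)) := Units.continuous_coe_inv.comp hc

lemma continuous_cj {V : G →* GL (Fin 2) E} (hc : Continuous V) (a : M2 E) :
    Continuous (fun g => cj (V g) a) := by
  unfold cj
  exact ((continuous_coe hc).mul continuous_const).mul (continuous_coe_inv hc)

/-- no stable line -/
lemma no_line {V : G →* GL (Fin 2) E} (hc : Continuous V) (hV : StrIrr V) {y : M2 E}
    (hy : y.trace = 0) (h0 : y ≠ 0) (hline : ∀ g, ∃ c : E, cj (V g) y = c • y) : False := by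
  by_cases hd : y.det = 0
  · have hyy : y * y = 0 := by rw [sq_traceless hy, hd]; simp
    have h1 : ∀ m : M2 E, y * m * y = 0 := by
      intro m
      have hm : m ∈ Submodule.span E ((fun g => (V g : M2 E)) '' ((⊤ : Subgroup G) : Set G)) := by
        rw [hV ⊤ (by simp)]; trivial
      induction hm using Submodule.span_induction with
      | mem x hx =>
        obtain ⟨g, -, rfl⟩ := hx
        obtain ⟨c, hcg⟩ := hline g
        have hc0 : c ≠ 0 := by
          rintro rfl
          rw [zero_smul] at hcg
          apply h0
          have := congrArg (cj (V g)⁻¹) hcg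
          rwa [← cj_mul_left, inv_mul_cancel, cj_one_left, cj_zero] at this
        rw [cj_eq_iff] at hcg
        have : c • (y * (V g : M2 E) * y) = 0 := by
          have e : c • (y * (V g : M2 E) * y) = (c • y * (V g : M2 E)) * y := by
            simp only [smul_mul_assoc]
          rw [e, ← hcg, mul_assoc, hyy, mul_zero]
        exact (smul_eq_zero.mp this).resolve_left hc0
      | zero => simp
      | add a b _ _ ha hb => rw [mul_add, add_mul, ha, hb, add_zero]
      | smul c a _ ha => rw [mul_smul_comm, smul_mul_assoc, ha, smul_zero]
    apply h0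
    have h2 : ∀ i j, y i j = 0 := by
      intro i j
      have := congrFun (congrFun (h1 (single j i 1)) i) j
      have e : (y * (single j i 1 : M2 E) * y : M2 E) i j = y i j * y i j := by
        rw [Matrix.mul_assoc, Matrix.mul_apply]
        fin_cases i <;> fin_cases j <;> simp [Matrix.mul_apply, Matrix.single]
      rw [e] at this
      exact mul_self_eq_zero.mp this
    ext i j; exact h2 i j
  · -- sign character
    have hpm : ∀ g, cj (V g) y = y ∨ cj (V g) y = -y := by
      intro g
      obtain ⟨c, hcg⟩ := hline g
      have h1 : y.det = c ^ 2 * y.det := by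
        have := det_cj (V g) y
        rw [hcg, Matrix.det_smul] at this
        simpa using this.symm
      have h2 : (c - 1) * (c + 1) = 0 := by
        have : (c ^ 2 - 1) * y.det = 0 := by linear_combination -h1
        rcases mul_eq_zero.mp this with h | h
        · linear_combination h
        · exact absurd h hd
      rcases mul_eq_zero.mp h2 with h | h
      · left; rw [hcg, show c = 1 by linear_combination h, one_smul]
      · right; rw [hcg, show c = -1 by linear_combination h, neg_one_smul]
    let U : Subgroup G :=
      { carrier := {g | cj (V g) y = y}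
        mul_mem' := by
          intro a b ha hb
          change cj (V (a * b)) y = y
          rw [map_mul, cj_mul_left, show cj (V b) y = y from hb, show cj (V a) y = y from ha]
        one_mem' := by
          change cj (V 1) y = y
          rw [map_one, cj_one_left]
        inv_mem' := by
          intro a ha
          change cj (V a⁻¹) y = y
          have h1 : cj (V a) y = y := ha
          rw [map_inv]
          conv_lhs => rw [← h1]
          rw [← cj_mul_left, inv_mul_cancel, cj_one_left] }
    have hU : IsOpen (U : Set G) := by
      have : (U : Set G) = {g | cj (V g) y = -y}ᶜ := by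
        ext g
        constructor
        · intro hg hg'
          have h1 : cj (V g) y = y := hg
          have h2 : cj (V g) y = -y := hg'
          rw [h1] at h2
          apply h0
          have h3 : (2 : E) • y = 0 := by rw [two_smul]; nth_rewrite 1 [h2]; simp
          exact (smul_eq_zero.mp h3).resolve_left two_ne_zero
        · intro hg
          exact (hpm g).resolve_right hg
      rw [this]
      exact (isClosed_eq (continuous_cj hc y) continuous_const).isOpen_compl
    have hcomm : ∀ m : M2 E, m * y = y * m := by
      intro m
      have hm : m ∈ Submodule.span E ((fun g => (V g : M2 E)) '' (U : Set G)) := by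
        rw [hV U hU]; trivial
      induction hm using Submodule.span_induction with
      | mem x hx =>
        obtain ⟨g, hg, rfl⟩ := hx
        exact (cj_eq_iff _ _ _).mp hg
      | zero => simp
      | add a b _ _ ha hb => rw [mul_add, add_mul, ha, hb]
      | smul c a _ ha => rw [mul_smul_comm, smul_mul_assoc, ha]
    have hs := scalar_of_commutes (n := y) (fun m => (hcomm m).symm)
    rw [hs] at hy
    simp only [Matrix.trace_smul, Matrix.trace_one, Fintype.card_fin, smul_eq_mul] at hy
    have : y 0 0 = 0 := by
      push_cast at hy
      rcases mul_eq_zero.mp hy with h | h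
      · exact h
      · norm_num at h
    apply h0
    rw [hs, this, zero_smul]

lemma finrank_sl : finrank E (LinearMap.ker (Matrix.traceLinearMap (Fin 2) E E)) = 3 := by
  have h1 := LinearMap.finrank_range_add_finrank_ker (Matrix.traceLinearMap (Fin 2) E E)
  have h2 : LinearMap.range (Matrix.traceLinearMap (Fin 2) E E) = ⊤ := by
    rw [LinearMap.range_eq_top]
    intro x
    exact ⟨single 0 0 x, by simp⟩
  rw [h2, finrank_top, finrank_self, Module.finrank_matrix] at h1
  simp at h1
  omega

theorem adSimple_of_strIrr {V : G →* GL (Fin 2) E} (hc : Continuous V) (hV : StrIrr V) :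
    AdSimple V := by
  intro W hW hst hne
  obtain ⟨a, ha, ha0⟩ := hne
  have hle : W ≤ LinearMap.ker (Matrix.traceLinearMap (Fin 2) E E) := by
    intro x hx
    exact hW x hx
  by_contra hcon
  push Not at hcon
  obtain ⟨x, hx, hxW⟩ := hcon
  have hlt : finrank E W < 3 := by
    rw [← finrank_sl (E := E)]
    apply Submodule.finrank_lt_finrank_of_lt
    refine lt_of_le_of_ne hle ?_
    intro h
    apply hxW
    rw [h]; exact hx
  -- second element
  have : ∃ g, ∀ c : E, cj (V g) a ≠ c • a := by
    by_contra h
    push Not at h
    exact no_line hc hV (hW a ha) ha0 h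
  obtain ⟨g₀, hg₀⟩ := this
  set b := cj (V g₀) a with hb
  have hbW : b ∈ W := hst g₀ a ha
  have hli : LinearIndependent E ![(⟨a, ha⟩ : W), ⟨b, hbW⟩] := by
    rw [LinearIndependent.pair_iff' (by intro h; exact ha0 (congrArg Subtype.val h))]
    intro c h
    exact hg₀ c (congrArg Subtype.val h).symm
  have h2 : finrank E W = 2 := by
    have := hli.fintype_card_le_finrank
    simp at this
    omega
  have hspan := hli.span_eq_top_of_card_eq_finrank (by simp [h2])
  have hcomb : ∀ z ∈ W, ∃ α β : E, z = α • a + β • b := by
    intro z hz
    have : (⟨z, hz⟩ : W) ∈ Submodule.span E (Set.range ![(⟨a, ha⟩ : W), ⟨b, hbW⟩]) := by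
      rw [hspan]; trivial
    rw [Matrix.range_cons, Matrix.range_cons, Matrix.range_empty, Set.union_empty,
      Set.singleton_union, Submodule.mem_span_pair] at this
    obtain ⟨α, β, h⟩ := this
    exact ⟨α, β, (congrArg Subtype.val h).symm⟩
  have hy0 : a * b - b * a ≠ 0 := by
    intro h
    obtain ⟨c, hc'⟩ := comm_traceless (hW a ha) (hW b hbW) ha0 h
    exact hg₀ c hc'
  apply no_line hc hV (trace_bracket a b) hy0
  intro g
  obtain ⟨α, β, h1⟩ := hcomb _ (hst g a ha)
  obtain ⟨γ, δ, h2⟩ := hcomb _ (hst g b hbW)
  refine ⟨α * δ - β * γ, ?_⟩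
  rw [cj_sub, cj_mul, cj_mul, h1, h2]
  simp only [add_mul, mul_add, smul_mul_assoc, mul_smul_comm, smul_add, smul_smul, smul_sub,
    sub_smul]
  rw [mul_comm γ α, mul_comm γ β, mul_comm δ α, mul_comm δ β]
  abel

end

end Pool.Agent.Helper27.FM
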