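import Pool.Agent.Helper27.FM.Defs2
import Pool.Agent.Helper27.FM.Simple
import Pool.Agent.Helper27.FM.Abs

/-!
# Isolating `sl_2` in the Lie span
-/

set_option autoImplicit false
open Matrix Module

namespace Pool.Agent.Helper27.FM

variable {E : Type*} [Field E] {G : Type*} [Group G] {ι J : Type*} {n : J → ℕ}

/-- the ambient algebra -/
abbrev Amb3 (E : Type*) (ι : Type*) {J : Type*} (n : J → ℕ) : Type _ :=
  M2 E × ((ι → M2 E) × (∀ j : J, Matrix (Fin (n j)) (Fin (n j)) E))

/-- the representation in the ambient algebra -/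
def RR (V : G →* GL (Fin 2) E) (ρ : ι → G →* GL (Fin 2) E) (σ : ∀ j : J, G →* GL (Fin (n j)) E) :
    G →* Amb3 E ι n where
  toFun g := ((V g : M2 E), ((fun i => (ρ i g : M2 E)),
    (fun j => (σ j g : Matrix (Fin (n j)) (Fin (n j)) E))))
  map_one' := by
    simp only [map_one, Units.val_one]
    rfl
  map_mul' a b := by
    simp only [map_mul, Units.val_mul]
    rfl

variable {V : G →* GL (Fin 2) E} {ρ : ι → G →* GL (Fin 2) E} {σ : ∀ j : J, G →* GL (Fin (n j)) E}

lemma RR_conj_fst (g : G) (z : Amb3 E ι n) :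
    (RR V ρ σ g * z * RR V ρ σ g⁻¹).1 = cj (V g) z.1 := by
  change (V g : M2 E) * z.1 * (V g⁻¹ : M2 E) = _
  rw [map_inv]; rfl

lemma RR_conj_snd (g : G) (z : Amb3 E ι n) (i : ι) :
    (RR V ρ σ g * z * RR V ρ σ g⁻¹).2.1 i = cj (ρ i g) (z.2.1 i) := by
  change (ρ i g : M2 E) * z.2.1 i * (ρ i g⁻¹ : M2 E) = _
  rw [map_inv]; rfl

lemma RR_conj_thd (g : G) (z : Amb3 E ι n) (j : J) :
    (RR V ρ σ g * z * RR V ρ σ g⁻¹).2.2 j =
      (σ j g : Matrix (Fin (n j)) (Fin (n j)) E) * z.2.2 j * ((σ j g)⁻¹ : GL (Fin (n j)) E) := by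
  change (σ j g : Matrix (Fin (n j)) (Fin (n j)) E) * z.2.2 j *
    (σ j g⁻¹ : Matrix (Fin (n j)) (Fin (n j)) E) = _
  rw [map_inv]

/-- elements of `L` with traceless first component and vanishing `σ`-components in `S` -/
def VanJ (L : Submodule E (Amb3 E ι n)) (S : Set J) : Submodule E (Amb3 E ι n) where
  carrier := {z | z ∈ L ∧ z.1.trace = 0 ∧ ∀ j ∈ S, z.2.2 j = 0}
  zero_mem' := ⟨L.zero_mem, by simp, fun j _ => rfl⟩
  add_mem' := by
    rintro a b ⟨h1, h2, h3⟩ ⟨h1', h2', h3'⟩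
    refine ⟨L.add_mem h1 h1', ?_, fun j hj => ?_⟩
    · change (a.1 + b.1).trace = 0
      rw [Matrix.trace_add, h2, h2', add_zero]
    · change a.2.2 j + b.2.2 j = 0
      rw [h3 j hj, h3' j hj, add_zero]
  smul_mem' := by
    rintro c a ⟨h1, h2, h3⟩
    refine ⟨L.smul_mem c h1, ?_, fun j hj => ?_⟩
    · change (c • a.1).trace = 0
      rw [Matrix.trace_smul, h2, smul_zero]
    · change c • a.2.2 j = 0
      rw [h3 j hj, smul_zero]

lemma VanJ_conj {L : Submodule E (Amb3 E ι n)}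
    (hconj : ∀ g, ∀ z ∈ L, RR V ρ σ g * z * RR V ρ σ g⁻¹ ∈ L) {S : Set J} (g : G)
    {z : Amb3 E ι n} (hz : z ∈ VanJ L S) : RR V ρ σ g * z * RR V ρ σ g⁻¹ ∈ VanJ L S := by
  obtain ⟨h1, h2, h3⟩ := hz
  refine ⟨hconj g z h1, ?_, fun j hj => ?_⟩
  · rw [RR_conj_fst, trace_cj, h2]
  · rw [RR_conj_thd, h3 j hj, mul_zero, zero_mul]

lemma VanJ_full {L : Submodule E (Amb3 E ι n)} (hV : AdSimple V)
    (hconj : ∀ g, ∀ z ∈ L, RR V ρ σ g * z * RR V ρ σ g⁻¹ ∈ L) {S : Set J}
    (hne : ∃ z ∈ VanJ L S, z.1 ≠ 0) : ∀ x : M2 E, x.trace = 0 → ∃ z ∈ VanJ L S, z.1 = x := by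
  have h := hV ((VanJ L S).map (LinearMap.fst E (M2 E) _)) ?_ ?_ ?_
  · intro x hx
    obtain ⟨z, hz, rfl⟩ := h x hx
    exact ⟨z, hz, rfl⟩
  · rintro _ ⟨z, hz, rfl⟩
    exact hz.2.1
  · rintro g _ ⟨z, hz, rfl⟩
    exact ⟨_, VanJ_conj hconj g hz, RR_conj_fst g z⟩
  · obtain ⟨z, hz, h0⟩ := hne
    exact ⟨z.1, ⟨z, hz, rfl⟩, h0⟩

theorem isolate [CharZero E] [Finite ι] [Finite J] (hV : AdSimple V)
    (hspan : Submodule.span E (Set.range (fun g => (V g : M2 E))) = ⊤)
    (L : Submodule E (Amb3 E ι n)) (hbr : ∀ a ∈ L, ∀ b ∈ L, a * b - b * a ∈ L)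
    (hconj : ∀ g, ∀ z ∈ L, RR V ρ σ g * z * RR V ρ σ g⁻¹ ∈ L)
    (hns : ∃ a ∈ L, ∀ c : E, a.1 ≠ c • (1 : M2 E)) (hocc : ∀ j, ¬ AdOccurs V (σ j)) :
    (∃ i, ∃ h : GL (Fin 2) E, ∀ g, ∃ c : E, (V g : M2 E) = c • cj h (ρ i g)) ∨
      ∀ x : M2 E, x.trace = 0 → ((x, (0, 0)) : Amb3 E ι n) ∈ L := by
  classical
  -- first stage: kill the `σ`-components
  have stage : ∀ S : Set J, S.Finite → ∃ z ∈ VanJ L S, z.1 ≠ 0 := by
    intro S hS
    induction S, hS using Set.Finite.induction_on with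
    | empty =>
      obtain ⟨a, ha, hna⟩ := hns
      have hg : ∃ g, cj (V g) a.1 ≠ a.1 := by
        by_contra hcon
        push Not at hcon
        have hcomm : ∀ m : M2 E, a.1 * m = m * a.1 := by
          intro m
          have hm : m ∈ Submodule.span E (Set.range (fun g => (V g : M2 E))) := by
            rw [hspan]; trivial
          induction hm using Submodule.span_induction with
          | mem x hx =>
            obtain ⟨g, rfl⟩ := hx
            exact ((cj_eq_iff _ _ _).mp (hcon g)).symm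
          | zero => simp
          | add x y _ _ hx hy => rw [mul_add, add_mul, hx, hy]
          | smul c x _ hx => rw [mul_smul_comm, smul_mul_assoc, hx]
        exact hna _ (scalar_of_commutes hcomm)
      obtain ⟨g, hg⟩ := hg
      refine ⟨RR V ρ σ g * a * RR V ρ σ g⁻¹ - a, ⟨L.sub_mem (hconj g a ha) ha, ?_, ?_⟩, ?_⟩
      · rw [Prod.fst_sub, RR_conj_fst, Matrix.trace_sub, trace_cj, sub_self]
      · intro j hj; exact absurd hj (Set.notMem_empty j)
      · rw [Prod.fst_sub, RR_conj_fst]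
        exact sub_ne_zero.mpr hg
    | @insert j S _ _ ih =>
      by_contra hcon
      push Not at hcon
      apply hocc j
      have hfull := VanJ_full hV hconj ih
      let prj : Amb3 E ι n →ₗ[E] Matrix (Fin (n j)) (Fin (n j)) E :=
        (LinearMap.proj j) ∘ₗ (LinearMap.snd E _ _) ∘ₗ (LinearMap.snd E _ _)
      have hprj : ∀ z, prj z = z.2.2 j := fun z => rfl
      have huniq : ∀ z ∈ VanJ L S, prj z = 0 → z.1 = 0 := by
        intro z hz h0
        apply hcon z
        refine ⟨hz.1, hz.2.1, ?_⟩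
        rintro k (hk | hk)
        · rw [hk, ← hprj]; exact h0
        · exact hz.2.2 k hk
      have huniq2 : ∀ z ∈ VanJ L S, ∀ z' ∈ VanJ L S, prj z = prj z' → z.1 = z'.1 := by
        intro z hz z' hz' h
        have := huniq (z - z') ((VanJ L S).sub_mem hz hz') (by rw [map_sub, h, sub_self])
        exact sub_eq_zero.mp this
      let B := (VanJ L S).map prj
      have hB : ∀ b : B, ∃ z ∈ VanJ L S, prj z = b := fun b => b.2
      choose φ hφ1 hφ2 using hB
      let f : B →ₗ[E] M2 E :=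
        { toFun := fun b => (φ b).1
          map_add' := by
            intro a b
            apply huniq2 _ (hφ1 _) _ ((VanJ L S).add_mem (hφ1 a) (hφ1 b))
            rw [map_add, hφ2, hφ2, hφ2]; rfl
          map_smul' := by
            intro c a
            apply huniq2 _ (hφ1 _) _ ((VanJ L S).smul_mem c (hφ1 a))
            rw [map_smul, hφ2, hφ2]; rfl }
      have hf : ∀ b, f b = (φ b).1 := fun b => rfl
      refine ⟨B, f, ?_, ?_, ?_⟩
      · intro h0
        obtain ⟨z, hz, hz0⟩ := ih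
        apply hz0
        have h1 : f ⟨prj z, ⟨z, hz, rfl⟩⟩ = z.1 := by
          rw [hf]
          apply huniq2 _ (hφ1 _) _ hz
          rw [hφ2]
        rw [← h1, h0]; rfl
      · intro b; exact (hφ1 b).2.1
      · intro g b
        have hm : prj (RR V ρ σ g * φ b * RR V ρ σ g⁻¹) ∈ B :=
          ⟨RR V ρ σ g * φ b * RR V ρ σ g⁻¹, VanJ_conj hconj g (hφ1 b), rfl⟩
        refine ⟨⟨_, hm⟩, ?_, ?_⟩
        · change prj (RR V ρ σ g * φ b * RR V ρ σ g⁻¹) = _
          rw [hprj, RR_conj_thd, ← hprj, hφ2]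
        · rw [hf, hf]
          have h1 := huniq2 _ (hφ1 ⟨_, hm⟩) _ (VanJ_conj hconj g (hφ1 b)) (hφ2 _)
          rw [h1, RR_conj_fst]
          rfl
  -- second stage
  have hfull := VanJ_full hV hconj (stage Set.univ Set.finite_univ)
  let inc : Amb E ι →ₗ[E] Amb3 E ι n :=
    LinearMap.prod (LinearMap.fst E _ _)
      (LinearMap.prod (LinearMap.snd E _ _) 0)
  have hinc : ∀ z, inc z = (z.1, (z.2, 0)) := fun z => rfl
  have key := goursat V ρ hV (L.comap inc) ?_ ?_ ?_
  · rcases key with h | h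
    · exact Or.inl h
    · right
      intro x hx
      have := h x hx
      exact this
  · intro a ha b hb
    have h1 := hbr _ ha _ hb
    change inc (a * b - b * a) ∈ L
    have e : inc (a * b - b * a) = inc a * inc b - inc b * inc a := by
      rw [hinc, hinc, hinc]
      ext1
      · rfl
      · ext1
        · rfl
        · simp
    rw [e]; exact h1
  · intro g a ha
    have h1 := hconj g _ ha
    change inc (adj V ρ g a) ∈ L
    have e : inc (adj V ρ g a) = RR V ρ σ g * inc a * RR V ρ σ g⁻¹ := by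
      ext1
      · rw [RR_conj_fst]; rfl
      · ext1
        · funext i
          rw [RR_conj_snd]; rfl
        · funext j
          rw [RR_conj_thd]
          change 0 = _ * (0 : Matrix (Fin (n j)) (Fin (n j)) E) * _
          rw [mul_zero, zero_mul]
    rw [e]; exact h1
  · obtain ⟨z, hz, hz1⟩ := hfull (single 0 1 1) (by simp)
    refine ⟨(z.1, z.2.1), ?_, ?_⟩
    · change ((z.1, (z.2.1, 0)) : Amb3 E ι n) ∈ L
      have : z = (z.1, (z.2.1, 0)) := by
        ext1
        · rfl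
        · ext1
          · rfl
          · funext j; exact hz.2.2 j trivial
      rw [← this]; exact hz.1
    · intro c hc
      change z.1 = c • (1 : M2 E) at hc
      rw [hz1] at hc
      have := congrFun (congrFun hc 0) 1
      simp at this

end Pool.Agent.Helper27.FM
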