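import Pool.Agent.Helper27.FM.Mat

/-!
# p-adic logarithms by power limits, in complete ultrametric algebras
-/

set_option autoImplicit false
open Filter Topology

namespace Pool.Agent.Helper27.FM

section generic

variable {A : Type*} [NormedRing A] [IsUltrametricDist A]

lemma norm_add_le_max' (a b : A) : ‖a + b‖ ≤ max ‖a‖ ‖b‖ := IsUltrametricDist.norm_add_le_max a b

lemma one_add_pow_sub_one {ρ : ℝ} {x : A} (hρ1 : ρ ≤ 1) (hx : ‖x‖ ≤ ρ) (n : ℕ) :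
    ‖(1 + x) ^ n - 1‖ ≤ ρ := by
  have h0 : 0 ≤ ρ := (norm_nonneg x).trans hx
  induction n with
  | zero => simpa using h0
  | succ n ih =>
    have e : (1 + x) ^ (n + 1) - 1 = ((1 + x) ^ n - 1) + (((1 + x) ^ n - 1) * x + x) := by
      rw [pow_succ]; noncomm_ring
    rw [e]
    refine (norm_add_le_max' _ _).trans (max_le ih ((norm_add_le_max' _ _).trans (max_le ?_ hx)))
    calc ‖((1 + x) ^ n - 1) * x‖ ≤ ‖(1 + x) ^ n - 1‖ * ‖x‖ := norm_mul_le _ _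
      _ ≤ ρ * 1 := mul_le_mul ih (hx.trans hρ1) (norm_nonneg _) h0
      _ = ρ := mul_one _

lemma pow_sub_pow {ρ : ℝ} {x y : A} (hρ1 : ρ ≤ 1) (hx : ‖x‖ ≤ ρ) (hy : ‖y‖ ≤ ρ) (n : ℕ) :
    ‖(1 + x) ^ n - (1 + y) ^ n - (n : A) * (x - y)‖ ≤ ρ * ‖x - y‖ := by
  have h0 : 0 ≤ ρ := (norm_nonneg x).trans hx
  have h0' : 0 ≤ ρ * ‖x - y‖ := by positivity
  have hn : ∀ k : ℕ, ∀ z : A, ‖(k : A) * z‖ ≤ ‖z‖ := by
    intro k z
    induction k with
    | zero => simp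
    | succ k ih =>
      rw [Nat.cast_succ, add_mul, one_mul]
      exact (norm_add_le_max' _ _).trans (max_le ih le_rfl)
  induction n with
  | zero => simpa using h0'
  | succ n ih =>
    have e : (1 + x) ^ (n + 1) - (1 + y) ^ (n + 1) - ((n + 1 : ℕ) : A) * (x - y) =
        ((1 + x) ^ n - (1 + y) ^ n - (n : A) * (x - y)) +
        (((1 + x) ^ n - (1 + y) ^ n - (n : A) * (x - y)) * x +
        ((n : A) * ((x - y) * x) + ((1 + y) ^ n - 1) * (x - y))) := by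
      rw [pow_succ, pow_succ]; push_cast; noncomm_ring
    rw [e]
    refine (norm_add_le_max' _ _).trans (max_le ih ((norm_add_le_max' _ _).trans (max_le ?_
      ((norm_add_le_max' _ _).trans (max_le ?_ ?_)))))
    · calc _ ≤ ‖(1 + x) ^ n - (1 + y) ^ n - (n : A) * (x - y)‖ * ‖x‖ := norm_mul_le _ _
        _ ≤ (ρ * ‖x - y‖) * 1 := mul_le_mul ih (hx.trans hρ1) (norm_nonneg _) h0'
        _ = _ := mul_one _
    · refine (hn _ _).trans ?_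
      calc ‖(x - y) * x‖ ≤ ‖x - y‖ * ‖x‖ := norm_mul_le _ _
        _ ≤ ‖x - y‖ * ρ := by gcongr
        _ = _ := mul_comm _ _
    · calc _ ≤ ‖(1 + y) ^ n - 1‖ * ‖x - y‖ := norm_mul_le _ _
        _ ≤ ρ * ‖x - y‖ := by
          gcongr
          exact one_add_pow_sub_one hρ1 hy n

variable (p : ℕ) [hp : Fact p.Prime] [NormedAlgebra ℚ_[p] A]

lemma norm_p_mul (z : A) : ‖(p : A) * z‖ = (p : ℝ)⁻¹ * ‖z‖ := by
  have e : (p : A) * z = (p : ℚ_[p]) • z := by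
    rw [Algebra.smul_def, map_natCast]
  rw [e, norm_smul, Padic.norm_p]

lemma small_pow {x y : A} (hx : ‖x‖ ≤ (p : ℝ)⁻¹ ^ 2) (hy : ‖y‖ ≤ (p : ℝ)⁻¹ ^ 2) :
    ‖(1 + x) ^ p - (1 + y) ^ p‖ = (p : ℝ)⁻¹ * ‖x - y‖ := by
  have hp0 : 0 < (p : ℝ)⁻¹ := by
    have := hp.out.pos
    positivity
  have hp1 : (p : ℝ)⁻¹ < 1 := by
    apply inv_lt_one_of_one_lt₀
    exact_mod_cast hp.out.one_lt
  have h1 : (p : ℝ)⁻¹ ^ 2 ≤ 1 := pow_le_one₀ hp0.le hp1.le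
  by_cases hxy : x = y
  · subst hxy; simp
  · have hpos : 0 < ‖x - y‖ := norm_pos_iff.mpr (sub_ne_zero.mpr hxy)
    have hD := pow_sub_pow h1 hx hy p
    set D := (1 + x) ^ p - (1 + y) ^ p - (p : A) * (x - y) with hDdef
    have hlt : ‖D‖ < ‖(p : A) * (x - y)‖ := by
      rw [norm_p_mul]
      refine hD.trans_lt ?_
      rw [pow_two]
      gcongr
      calc (p : ℝ)⁻¹ * (p : ℝ)⁻¹ < (p : ℝ)⁻¹ * 1 := by gcongr
        _ = _ := mul_one _
    have e : (1 + x) ^ p - (1 + y) ^ p = D + (p : A) * (x - y) := by rw [hDdef]; abel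
    rw [e, IsUltrametricDist.norm_add_eq_max_of_norm_ne_norm hlt.ne, max_eq_right hlt.le,
      norm_p_mul]

/-- the powers of `1 + x` -/
lemma small_pow_iter {x y : A} (hx : ‖x‖ ≤ (p : ℝ)⁻¹ ^ 2) (hy : ‖y‖ ≤ (p : ℝ)⁻¹ ^ 2) (k : ℕ) :
    ‖(1 + x) ^ (p ^ k) - (1 + y) ^ (p ^ k)‖ = (p : ℝ)⁻¹ ^ k * ‖x - y‖ := by
  have hp0 : 0 < (p : ℝ)⁻¹ := by
    have := hp.out.pos
    positivity
  have hp1 : (p : ℝ)⁻¹ < 1 := by
    apply inv_lt_one_of_one_lt₀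
    exact_mod_cast hp.out.one_lt
  have h1 : (p : ℝ)⁻¹ ^ 2 ≤ 1 := pow_le_one₀ hp0.le hp1.le
  induction k with
  | zero => simp
  | succ k ih =>
    have hxk : ‖(1 + x) ^ (p ^ k) - 1‖ ≤ (p : ℝ)⁻¹ ^ 2 := one_add_pow_sub_one h1 hx _
    have hyk : ‖(1 + y) ^ (p ^ k) - 1‖ ≤ (p : ℝ)⁻¹ ^ 2 := one_add_pow_sub_one h1 hy _
    have := small_pow p hxk hyk
    rw [add_sub_cancel, add_sub_cancel, ← pow_mul, ← pow_mul, ← pow_succ,
      sub_sub_sub_cancel_right, ih] at this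
    rw [this, pow_succ]; ring

/-- the approximating sequence of the logarithm -/
noncomputable def logSeq (x : A) (k : ℕ) : A := ((p : ℚ_[p]) ^ k)⁻¹ • ((1 + x) ^ (p ^ k) - 1)

lemma norm_logSeq_sub {x y : A} (hx : ‖x‖ ≤ (p : ℝ)⁻¹ ^ 2) (hy : ‖y‖ ≤ (p : ℝ)⁻¹ ^ 2) (k : ℕ) :
    ‖logSeq p x k - logSeq p y k‖ = ‖x - y‖ := by
  have hp0 : (p : ℝ)⁻¹ ≠ 0 := by
    have := hp.out.pos
    positivity
  unfold logSeq
  rw [← smul_sub, sub_sub_sub_cancel_right, norm_smul, norm_inv, norm_pow, Padic.norm_p,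
    small_pow_iter p hx hy k, ← mul_assoc, inv_mul_cancel₀ (pow_ne_zero _ hp0), one_mul]

lemma norm_logSeq_succ_sub {x : A} (hx : ‖x‖ ≤ (p : ℝ)⁻¹ ^ 2) (k : ℕ) :
    ‖logSeq p x k - logSeq p x (k + 1)‖ ≤ 1 * ((p : ℝ)⁻¹) ^ k := by
  have hp0 : 0 < (p : ℝ)⁻¹ := by
    have := hp.out.pos
    positivity
  have hp1 : (p : ℝ)⁻¹ < 1 := by
    apply inv_lt_one_of_one_lt₀
    exact_mod_cast hp.out.one_lt
  have h1 : (p : ℝ)⁻¹ ^ 2 ≤ 1 := pow_le_one₀ hp0.le hp1.le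
  set a := (1 + x) ^ (p ^ k) - 1 with ha
  have hak : ‖a‖ = (p : ℝ)⁻¹ ^ k * ‖x‖ := by
    have := small_pow_iter p hx (y := (0 : A)) (by rw [norm_zero]; positivity) k
    simpa [ha] using this
  have hale : ‖a‖ ≤ 1 := by
    rw [hak]
    exact mul_le_one₀ (pow_le_one₀ hp0.le hp1.le) (norm_nonneg _) (hx.trans h1)
  have h2 := pow_sub_pow (x := a) (y := 0) hale le_rfl (by simp) p
  have e1 : (1 + a) ^ p = (1 + x) ^ (p ^ (k + 1)) := by
    rw [ha, add_sub_cancel, ← pow_mul, ← pow_succ]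
  rw [e1, add_zero, one_pow, sub_zero] at h2
  have e2 : logSeq p x k - logSeq p x (k + 1) =
      -(((p : ℚ_[p]) ^ (k + 1))⁻¹ • ((1 + x) ^ (p ^ (k + 1)) - 1 - (p : A) * a)) := by
    unfold logSeq
    have hpne : (p : ℚ_[p]) ≠ 0 := by exact_mod_cast hp.out.ne_zero
    have e3 : (p : A) * a = (p : ℚ_[p]) • a := by rw [Algebra.smul_def, map_natCast]
    rw [smul_sub _ _ ((p : A) * a), e3, smul_smul]
    have e4 : ((p : ℚ_[p]) ^ (k + 1))⁻¹ * (p : ℚ_[p]) = ((p : ℚ_[p]) ^ k)⁻¹ := by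
      rw [pow_succ]; field_simp
    rw [e4]
    abel
  rw [e2, norm_neg, norm_smul, norm_inv, norm_pow, Padic.norm_p, one_mul]
  calc _ ≤ ((p : ℝ)⁻¹ ^ (k + 1))⁻¹ * (‖a‖ * ‖a‖) := by gcongr
    _ = ((p : ℝ)⁻¹ ^ (k + 1))⁻¹ * ((p : ℝ)⁻¹ ^ k * (p : ℝ)⁻¹ ^ k) * (‖x‖ * ‖x‖) := by
        rw [hak]; ring
    _ = (p : ℝ)⁻¹ ^ k * ((p : ℝ)⁻¹)⁻¹ * (‖x‖ * ‖x‖) := by
        rw [pow_succ]; field_simp
    _ ≤ (p : ℝ)⁻¹ ^ k * ((p : ℝ)⁻¹)⁻¹ * ((p : ℝ)⁻¹ ^ 2 * 1) := by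
        gcongr
        exact hx.trans h1
    _ = (p : ℝ)⁻¹ ^ k * (p : ℝ)⁻¹ := by field_simp
    _ ≤ (p : ℝ)⁻¹ ^ k * 1 := by gcongr
    _ = _ := mul_one _

lemma exists_log [CompleteSpace A] {x : A} (hx : ‖x‖ ≤ (p : ℝ)⁻¹ ^ 2) :
    ∃ X : A, Tendsto (logSeq p x) atTop (𝓝 X) := by
  have hp1 : (p : ℝ)⁻¹ < 1 := by
    apply inv_lt_one_of_one_lt₀
    exact_mod_cast hp.out.one_lt
  apply cauchySeq_tendsto_of_complete
  refine cauchySeq_of_le_geometric _ 1 hp1 (fun n => ?_)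
  rw [dist_eq_norm]
  exact norm_logSeq_succ_sub p hx n

lemma log_inj {x y X : A} (hx : ‖x‖ ≤ (p : ℝ)⁻¹ ^ 2) (hy : ‖y‖ ≤ (p : ℝ)⁻¹ ^ 2)
    (h1 : Tendsto (logSeq p x) atTop (𝓝 X)) (h2 : Tendsto (logSeq p y) atTop (𝓝 X)) : x = y := by
  have h3 := (h1.sub h2).norm
  simp only [sub_self, norm_zero] at h3
  have h4 : (fun k => ‖logSeq p x k - logSeq p y k‖) = fun _ => ‖x - y‖ := by
    funext k; exact norm_logSeq_sub p hx hy k
  rw [h4] at h3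
  have := tendsto_nhds_unique h3 tendsto_const_nhds
  exact (sub_eq_zero.mp (norm_eq_zero.mp this.symm))

end generic

/-! ### matrices with the sup norm -/

section mat

variable {E : Type*} [NormedField E] [IsUltrametricDist E]

attribute [local instance] Matrix.normedAddCommGroup Matrix.normedSpace

lemma mat_norm_mul_le (a b : M2 E) : ‖a * b‖ ≤ ‖a‖ * ‖b‖ := by
  rw [Matrix.norm_le_iff (by positivity)]
  intro i j
  rw [Matrix.mul_apply, Fin.sum_univ_two]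
  refine (IsUltrametricDist.norm_add_le_max _ _).trans (max_le ?_ ?_)
  · rw [norm_mul]
    exact mul_le_mul (Matrix.norm_entry_le_entrywise_sup_norm a)
      (Matrix.norm_entry_le_entrywise_sup_norm b) (norm_nonneg _) (norm_nonneg _)
  · rw [norm_mul]
    exact mul_le_mul (Matrix.norm_entry_le_entrywise_sup_norm a)
      (Matrix.norm_entry_le_entrywise_sup_norm b) (norm_nonneg _) (norm_nonneg _)

/-- the normed ring structure given by the sup norm -/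
@[reducible] noncomputable def matNormedRing : NormedRing (M2 E) :=
  { (Matrix.normedAddCommGroup : NormedAddCommGroup (M2 E)),
    (inferInstance : Ring (M2 E)) with
    norm_mul_le := mat_norm_mul_le }

lemma matUltra : @IsUltrametricDist (M2 E)
    (matNormedRing (E := E)).toNonUnitalNormedRing.toNormedAddCommGroup.toSeminormedAddCommGroup.toPseudoMetricSpace.toDist :=
  inferInstanceAs (IsUltrametricDist (Fin 2 → Fin 2 → E))

lemma mat_norm_le_iff (a : M2 E) {r : ℝ} (hr : 0 ≤ r) : ‖a‖ ≤ r ↔ ∀ i j, ‖a i j‖ ≤ r :=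
  Matrix.norm_le_iff hr

variable (p : ℕ) [hp : Fact p.Prime] [NormedAlgebra ℚ_[p] E]

/-- the normed algebra structure -/
@[reducible] noncomputable def matNormedAlgebra :
    @NormedAlgebra ℚ_[p] (M2 E) _ (matNormedRing (E := E)).toSeminormedRing :=
  letI := matNormedRing (E := E)
  { (inferInstance : Algebra ℚ_[p] (M2 E)) with
    norm_smul_le := by
      intro c a
      change ‖c • a‖ ≤ ‖c‖ * ‖a‖
      rw [mat_norm_le_iff _ (by positivity)]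
      intro i j
      rw [Matrix.smul_apply, norm_smul]
      gcongr
      exact Matrix.norm_entry_le_entrywise_sup_norm a }

lemma smul_p_eq (n : ℕ) (a : M2 E) : ((p : E) ^ n)⁻¹ • a = ((p : ℚ_[p]) ^ n)⁻¹ • a := by
  ext i j
  rw [Matrix.smul_apply, Matrix.smul_apply, smul_eq_mul, Algebra.smul_def, map_inv₀, map_pow,
    map_natCast]

lemma exists_log_mat [CompleteSpace E] (a : M2 E) (ha : ∀ i j, ‖(a - 1) i j‖ ≤ (p : ℝ)⁻¹ ^ 2) :
    ∃ X : M2 E, Tendsto (fun n : ℕ => ((p : E) ^ n)⁻¹ • (a ^ (p ^ n) - 1)) atTop (𝓝 X) := by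
  letI := matNormedRing (E := E)
  letI := matNormedAlgebra (E := E) p
  haveI := matUltra (E := E)
  have hC : @CompleteSpace (M2 E)
      (matNormedRing (E := E)).toPseudoMetricSpace.toUniformSpace :=
    inferInstanceAs (CompleteSpace (Fin 2 → Fin 2 → E))
  have ha' : ‖a - 1‖ ≤ (p : ℝ)⁻¹ ^ 2 := by
    rw [mat_norm_le_iff _ (by positivity)]
    exact ha
  obtain ⟨X, hX⟩ := @exists_log (M2 E) _ _ p _ _ hC (a - 1) ha'
  refine ⟨X, ?_⟩
  have : (fun n : ℕ => ((p : E) ^ n)⁻¹ • (a ^ (p ^ n) - 1)) = logSeq p (a - 1) := by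
    funext n
    rw [smul_p_eq, logSeq, add_sub_cancel]
  rw [this]
  exact hX

lemma log_inj_mat {a b X : M2 E} (ha : ∀ i j, ‖(a - 1) i j‖ ≤ (p : ℝ)⁻¹ ^ 2)
    (hb : ∀ i j, ‖(b - 1) i j‖ ≤ (p : ℝ)⁻¹ ^ 2)
    (h1 : Tendsto (fun n : ℕ => ((p : E) ^ n)⁻¹ • (a ^ (p ^ n) - 1)) atTop (𝓝 X))
    (h2 : Tendsto (fun n : ℕ => ((p : E) ^ n)⁻¹ • (b ^ (p ^ n) - 1)) atTop (𝓝 X)) : a = b := by
  letI := matNormedRing (E := E)
  letI := matNormedAlgebra (E := E) p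
  haveI := matUltra (E := E)
  have ha' : ‖a - 1‖ ≤ (p : ℝ)⁻¹ ^ 2 := by
    rw [mat_norm_le_iff _ (by positivity)]
    exact ha
  have hb' : ‖b - 1‖ ≤ (p : ℝ)⁻¹ ^ 2 := by
    rw [mat_norm_le_iff _ (by positivity)]
    exact hb
  have e1 : (fun n : ℕ => ((p : E) ^ n)⁻¹ • (a ^ (p ^ n) - 1)) = logSeq p (a - 1) := by
    funext n
    rw [smul_p_eq, logSeq, add_sub_cancel]
  have e2 : (fun n : ℕ => ((p : E) ^ n)⁻¹ • (b ^ (p ^ n) - 1)) = logSeq p (b - 1) := by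
    funext n
    rw [smul_p_eq, logSeq, add_sub_cancel]
  rw [e1] at h1
  rw [e2] at h2
  exact sub_left_injective (log_inj p ha' hb' h1 h2)

end mat

end Pool.Agent.Helper27.FM
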