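import Mathlib

/-!
# Elementary facts on 2x2 matrices
-/

set_option autoImplicit false
open Matrix

namespace Pool.Agent.Helper27.FM

/-- 2x2 matrices -/
abbrev M2 (E : Type*) := Matrix (Fin 2) (Fin 2) E

variable {E : Type*} [Field E]

omit [Field E] in
lemma ext2 {a b : M2 E} (h00 : a 0 0 = b 0 0) (h01 : a 0 1 = b 0 1) (h10 : a 1 0 = b 1 0)
    (h11 : a 1 1 = b 1 1) : a = b := by
  ext i j; fin_cases i <;> fin_cases j <;> assumption

lemma tr_def (a : M2 E) : a.trace = a 0 0 + a 1 1 := Matrix.trace_fin_two a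

lemma det_def (a : M2 E) : a.det = a 0 0 * a 1 1 - a 0 1 * a 1 0 := Matrix.det_fin_two a

lemma polar {a b : M2 E} (ha : a.trace = 0) (hb : b.trace = 0) :
    a * b + b * a = (a * b).trace • (1 : M2 E) := by
  rw [tr_def] at ha hb
  have ha' : a 1 1 = - a 0 0 := by linear_combination ha
  have hb' : b 1 1 = - b 0 0 := by linear_combination hb
  apply ext2 <;> simp [Matrix.mul_apply, tr_def, ha', hb'] <;> ring

lemma sq_traceless {a : M2 E} (ha : a.trace = 0) : a * a = (-a.det) • (1 : M2 E) := by
  rw [tr_def] at ha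
  have ha' : a 1 1 = - a 0 0 := by linear_combination ha
  apply ext2 <;> simp [Matrix.mul_apply, det_def, ha'] <;> ring

lemma double_bracket {a b : M2 E} (ha : a.trace = 0) (hb : b.trace = 0) :
    a * (a * b - b * a) - (a * b - b * a) * a =
      (-4 * a.det) • b + (-2 * (a * b).trace) • a := by
  rw [tr_def] at ha hb
  have ha' : a 1 1 = - a 0 0 := by linear_combination ha
  have hb' : b 1 1 = - b 0 0 := by linear_combination hb
  apply ext2 <;> simp [Matrix.mul_apply, tr_def, det_def, ha', hb'] <;> ring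

lemma det_add_traceless {a b : M2 E} (ha : a.trace = 0) (hb : b.trace = 0) :
    (a * b).trace = - ((a + b).det - a.det - b.det) := by
  rw [tr_def] at ha hb
  have ha' : a 1 1 = - a 0 0 := by linear_combination ha
  have hb' : b 1 1 = - b 0 0 := by linear_combination hb
  simp [Matrix.mul_apply, tr_def, det_def, ha', hb']; ring

lemma trace_bracket (a b : M2 E) : (a * b - b * a).trace = 0 := by
  rw [Matrix.trace_sub, Matrix.trace_mul_comm, sub_self]

lemma trace_conj (g : GL (Fin 2) E) (a : M2 E) :
    ((g : M2 E) * a * ((g⁻¹ : GL (Fin 2) E) : M2 E)).trace = a.trace := by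
  rw [Matrix.trace_mul_comm, ← mul_assoc, ← Units.val_mul, inv_mul_cancel, Units.val_one, one_mul]

/-- a unital multiplicative linear endomorphism of `M2` is inner -/
lemma inner_of_mul (T : M2 E →ₗ[E] M2 E) (h1 : T 1 = 1) (hmul : ∀ a b, T (a * b) = T a * T b) :
    ∃ h : GL (Fin 2) E, ∀ m, T m = (h : M2 E) * m * ((h⁻¹ : GL (Fin 2) E) : M2 E) := by
  classical
  have hne : T (single 0 0 1) ≠ 0 := by
    intro h0
    have h11 : (single 1 1 1 : M2 E) = single 1 0 1 * single 0 0 1 * single 0 1 1 := by
      simp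
    have : T (single 1 1 1) = 0 := by rw [h11, hmul, hmul, h0]; simp
    have h2 : (1 : M2 E) = single 0 0 1 + single 1 1 1 := by
      apply ext2 <;> simp [Matrix.single]
    rw [h2, map_add, h0, this, add_zero, ← h2] at h1
    exact zero_ne_one h1
  obtain ⟨v, hv⟩ : ∃ v : Fin 2 → E, T (single 0 0 1) *ᵥ v ≠ 0 := by
    by_contra hcon
    push Not at hcon
    apply hne
    ext i j
    have := congrFun (hcon (Pi.single j 1)) i
    simpa using this
  set H : M2 E := Matrix.of fun i j => (T (single j 0 1) *ᵥ v) i with hH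
  have key : ∀ m, T m * H = H * m := by
    intro m
    ext i j
    have e1 : (T m * H) i j = (T m *ᵥ (T (single j 0 1) *ᵥ v)) i := by
      simp only [Matrix.mul_apply, hH, Matrix.of_apply, Matrix.mulVec, dotProduct]
    rw [e1, Matrix.mulVec_mulVec, ← hmul]
    have e2 : m * single j 0 1 = ∑ k, m k j • (single k 0 1 : M2 E) := by
      ext a b
      simp only [Matrix.sum_apply, Matrix.smul_apply, smul_eq_mul, Fin.sum_univ_two]
      fin_cases a <;> fin_cases b <;> simp [Matrix.mul_apply, Matrix.single]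
    rw [e2, map_sum]
    simp only [map_smul, Matrix.sum_mulVec, Matrix.smul_mulVec, Finset.sum_apply,
      Pi.smul_apply, smul_eq_mul, Matrix.mul_apply, hH, Matrix.of_apply]
    apply Finset.sum_congr rfl
    intro k _
    ring
  have hdet : H.det ≠ 0 := by
    intro hd
    obtain ⟨c, hc0, hc⟩ := Matrix.exists_mulVec_eq_zero_iff.mpr hd
    obtain ⟨j, hj⟩ : ∃ j, c j ≠ 0 := by
      by_contra hcon
      push Not at hcon
      exact hc0 (funext hcon)
    have h3 : H *ᵥ ((single 0 j (c j)⁻¹ : M2 E) *ᵥ c) = 0 := by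
      rw [Matrix.mulVec_mulVec, ← key, ← Matrix.mulVec_mulVec, hc, Matrix.mulVec_zero]
    have h4 : (single 0 j (c j)⁻¹ : M2 E) *ᵥ c = Pi.single 0 1 := by
      ext a
      fin_cases a <;> fin_cases j <;> simp_all [Matrix.mulVec, dotProduct, Matrix.single]
    rw [h4] at h3
    apply hv
    ext i
    have := congrFun h3 i
    simpa [hH] using this
  refine ⟨Matrix.GeneralLinearGroup.mkOfDetNeZero H hdet, fun m => ?_⟩
  set g := Matrix.GeneralLinearGroup.mkOfDetNeZero H hdet with hg
  have hgv : (g : M2 E) = H := rfl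
  rw [hgv, ← key, mul_assoc, ← hgv, ← Units.val_mul, mul_inv_cancel, Units.val_one, mul_one]

/-- a matrix commuting with all matrices is scalar -/
lemma scalar_of_commutes {n : M2 E} (h : ∀ m : M2 E, n * m = m * n) : n = n 0 0 • (1 : M2 E) := by
  have h1 := h (single 0 1 1)
  have h2 := h (single 1 0 1)
  have a := congrFun (congrFun h1 0) 1
  have b := congrFun (congrFun h1 0) 0
  have c := congrFun (congrFun h2 0) 0
  simp [Matrix.mul_apply, Matrix.single] at a b c
  have b' := b.symm
  apply ext2 <;> simp [a, b', c]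

end Pool.Agent.Helper27.FM
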