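import Pool.Agent.Helper27.FM.Abs

/-!
# Invariant derivations of the polynomial ring of a finite-dimensional algebra
-/

set_option autoImplicit false
open Filter Topology

namespace Pool.Agent.Helper27.FM

section poly

variable {E : Type*} [Field E] {A : Type*} [Ring A] [Algebra E A] {ν : Type*} [Fintype ν]
  (b : Module.Basis ν E A)

/-- evaluation of a polynomial at the coordinates of a point -/
noncomputable def ev (X : A) : MvPolynomial ν E →ₐ[E] E :=
  MvPolynomial.aeval (fun v => b.repr X v)

/-- the linear polynomial of a linear form -/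
noncomputable def lin (φ : A →ₗ[E] E) : MvPolynomial ν E :=
  ∑ v, MvPolynomial.C (φ (b v)) * MvPolynomial.X v

omit [Fintype ν] in
lemma ev_X (X : A) (v : ν) : ev b X (MvPolynomial.X v) = b.repr X v := by
  simp [ev]

omit [Fintype ν] in
lemma ev_C (X : A) (c : E) : ev b X (MvPolynomial.C c) = c := by
  simp [ev]

lemma ev_lin (X : A) (φ : A →ₗ[E] E) : ev b X (lin b φ) = φ X := by
  unfold lin
  rw [map_sum]
  conv_rhs => rw [← b.sum_repr X, map_sum]
  refine Finset.sum_congr rfl fun v _ => ?_
  rw [map_mul, ev_X, ev_C, map_smul, smul_eq_mul, mul_comm]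

lemma lin_add (φ ψ : A →ₗ[E] E) : lin b (φ + ψ) = lin b φ + lin b ψ := by
  unfold lin
  rw [← Finset.sum_add_distrib]
  refine Finset.sum_congr rfl fun v _ => ?_
  rw [LinearMap.add_apply, map_add, add_mul]

lemma lin_smul (c : E) (φ : A →ₗ[E] E) : lin b (c • φ) = c • lin b φ := by
  unfold lin
  rw [Finset.smul_sum]
  refine Finset.sum_congr rfl fun v _ => ?_
  rw [LinearMap.smul_apply, smul_eq_mul, map_mul, MvPolynomial.smul_eq_C_mul, mul_assoc]

/-- the derivation `(D_z P)(X) = d/dt P((1 + t z) X)` at `t = 0` -/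
noncomputable def Dd (z : A) : Derivation E (MvPolynomial ν E) (MvPolynomial ν E) :=
  MvPolynomial.mkDerivation E (fun v => lin b ((b.coord v) ∘ₗ LinearMap.mulLeft E z))

lemma Dd_X (z : A) (v : ν) : Dd b z (MvPolynomial.X v) =
    lin b ((b.coord v) ∘ₗ LinearMap.mulLeft E z) := by
  unfold Dd; rw [MvPolynomial.mkDerivation_X]

lemma ev_Dd_X (X z : A) (v : ν) : ev b X (Dd b z (MvPolynomial.X v)) = b.repr (z * X) v := by
  rw [Dd_X, ev_lin]; rfl

lemma Dd_add (z z' : A) : Dd b (z + z') = Dd b z + Dd b z' := by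
  apply MvPolynomial.derivation_ext
  intro v
  rw [Derivation.add_apply, Dd_X, Dd_X, Dd_X, ← lin_add]
  congr 1
  ext x
  simp [add_mul]

lemma Dd_smul (c : E) (z : A) : Dd b (c • z) = c • Dd b z := by
  apply MvPolynomial.derivation_ext
  intro v
  rw [Derivation.smul_apply, Dd_X, Dd_X, ← lin_smul]
  congr 1
  ext x
  simp

lemma Dd_zero : Dd b (0 : A) = 0 := by
  have := Dd_smul b (0 : E) (0 : A)
  rwa [zero_smul, zero_smul] at this

/-- restriction of a polynomial to the line `(1 + t ε) X` -/
noncomputable def rl (ε X : A) : MvPolynomial ν E →ₐ[E] Polynomial E :=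
  MvPolynomial.aeval (fun v => Polynomial.C (b.repr X v) +
    Polynomial.X * Polynomial.C (b.repr (ε * X) v))

omit [Fintype ν] in
lemma rl_eval (ε X : A) (t : E) (Q : MvPolynomial ν E) :
    (rl b ε X Q).eval t = ev b ((1 + t • ε) * X) Q := by
  induction Q using MvPolynomial.induction_on with
  | C c => rw [ev_C]; simp [rl]
  | add P Q hP hQ => rw [map_add, map_add, Polynomial.eval_add, hP, hQ]
  | mul_X P v hP =>
    rw [map_mul, map_mul, Polynomial.eval_mul, hP, ev_X]
    congr 1
    rw [add_mul, one_mul, smul_mul_assoc, map_add, map_smul, Finsupp.add_apply,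
      Finsupp.smul_apply, smul_eq_mul]
    simp only [rl, MvPolynomial.aeval_X, Polynomial.eval_add, Polynomial.eval_mul,
      Polynomial.eval_X, Polynomial.eval_C]

lemma rl_lin {ε X : A} (φ : A →ₗ[E] E) : rl b ε X (lin b φ) =
    Polynomial.C (φ X) + Polynomial.X * Polynomial.C (φ (ε * X)) := by
  unfold lin
  rw [map_sum]
  have h1 : φ X = ∑ v, φ (b v) * b.repr X v := by
    conv_lhs => rw [← b.sum_repr X, map_sum]
    refine Finset.sum_congr rfl fun v _ => ?_
    rw [map_smul, smul_eq_mul, mul_comm]
  have h2 : φ (ε * X) = ∑ v, φ (b v) * b.repr (ε * X) v := by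
    conv_lhs => rw [← b.sum_repr (ε * X), map_sum]
    refine Finset.sum_congr rfl fun v _ => ?_
    rw [map_smul, smul_eq_mul, mul_comm]
  rw [h1, h2, map_sum, map_sum, Finset.mul_sum, ← Finset.sum_add_distrib]
  refine Finset.sum_congr rfl fun v _ => ?_
  simp only [rl, map_mul, MvPolynomial.aeval_C, MvPolynomial.aeval_X]
  rw [Polynomial.algebraMap_eq]
  ring

lemma rl_deriv {ε X : A} (hε : ε * ε = 0) (Q : MvPolynomial ν E) :
    Polynomial.derivative (rl b ε X Q) = rl b ε X (Dd b ε Q) := by
  induction Q using MvPolynomial.induction_on with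
  | C c => simp [rl]
  | add P Q hP hQ => rw [map_add, map_add, map_add, map_add, hP, hQ]
  | mul_X P v hP =>
    rw [map_mul, Polynomial.derivative_mul, hP, Derivation.leibniz, map_add, smul_eq_mul,
      smul_eq_mul, map_mul, map_mul, Dd_X, rl_lin]
    have e1 : rl b ε X (MvPolynomial.X v) = Polynomial.C (b.repr X v) +
      Polynomial.X * Polynomial.C (b.repr (ε * X) v) := by simp [rl]
    have e2 : (b.coord v ∘ₗ LinearMap.mulLeft E ε) X = b.repr (ε * X) v := rfl
    have e3 : (b.coord v ∘ₗ LinearMap.mulLeft E ε) (ε * X) = 0 := by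
      change b.repr (ε * (ε * X)) v = 0
      rw [← mul_assoc, hε, zero_mul, map_zero]; rfl
    rw [e1, e2, e3]
    simp
    ring

lemma taylor_van [CharZero E] {ε : A} (hε : ε * ε = 0) (X : A) (Q : MvPolynomial ν E)
    (h : ∀ k : ℕ, ev b X ((Dd b ε)^[k] Q) = 0) (t : E) : ev b ((1 + t • ε) * X) Q = 0 := by
  have hit : ∀ k : ℕ, Polynomial.derivative^[k] (rl b ε X Q) = rl b ε X ((Dd b ε)^[k] Q) := by
    intro k
    induction k with
    | zero => rfl
    | succ k ih =>
      rw [Function.iterate_succ_apply', ih, Function.iterate_succ_apply', rl_deriv b hε]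
  have hz : rl b ε X Q = 0 := by
    ext k
    have h1 := Polynomial.coeff_iterate_derivative (p := rl b ε X Q) (k := k) 0
    rw [hit, zero_add] at h1
    have h2 : (rl b ε X ((Dd b ε)^[k] Q)).coeff 0 = 0 := by
      rw [Polynomial.coeff_zero_eq_eval_zero, rl_eval, zero_smul, add_zero, one_mul]
      exact h k
    rw [h2, Nat.descFactorial_self, nsmul_eq_mul] at h1
    rcases mul_eq_zero.mp h1.symm with h3 | h3
    · exact absurd h3 (by exact_mod_cast Nat.factorial_ne_zero k)
    · rw [h3]; simp
  rw [← rl_eval, hz, Polynomial.eval_zero]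

/-- `Q` vanishes at `X` to infinite order in the directions `S` -/
def InfVan (S : Set A) (X : A) (Q : MvPolynomial ν E) : Prop :=
  ∀ w : List A, (∀ z ∈ w, z ∈ S) → ev b X (w.foldr (fun z P => Dd b z P) Q) = 0

lemma InfVan.step [CharZero E] {S : Set A} {X : A} {Q : MvPolynomial ν E} (h : InfVan b S X Q)
    {ε : A} (hε : ε * ε = 0) (hS : ε ∈ S) (t : E) : InfVan b S ((1 + t • ε) * X) Q := by
  intro w hw
  apply taylor_van b hε
  intro k
  have h1 := h (List.replicate k ε ++ w) (by
    intro z hz
    rcases List.mem_append.mp hz with hz | hz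
    · rw [List.eq_of_mem_replicate hz]; exact hS
    · exact hw z hz)
  rw [List.foldr_append] at h1
  have h2 : ∀ (k : ℕ) (P : MvPolynomial ν E),
      (List.replicate k ε).foldr (fun z P => Dd b z P) P = (Dd b ε)^[k] P := by
    intro k P
    induction k with
    | zero => rfl
    | succ k ih => rw [List.replicate_succ, List.foldr_cons, ih, Function.iterate_succ_apply']
  rw [h2] at h1
  exact h1

end poly

section limit

variable {E : Type*} [NontriviallyNormedField E] [CompleteSpace E] (p : ℕ) [hp : Fact p.Prime]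
  [NormedAlgebra ℚ_[p] E] {A : Type*} [Ring A] [Algebra E A] [TopologicalSpace A]
  [IsTopologicalRing A] [ContinuousSMul E A] [T2Space A] {ν : Type*} [Fintype ν]
  (b : Module.Basis ν E A)

lemma continuous_repr (v : ν) : Continuous (fun X : A => b.repr X v) := by
  haveI : FiniteDimensional E A := b.finiteDimensional_of_finite
  exact LinearMap.continuous_of_finiteDimensional (b.coord v)

lemma continuous_ev (Q : MvPolynomial ν E) : Continuous (fun X : A => ev b X Q) := by
  induction Q using MvPolynomial.induction_on with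
  | C c => simp only [ev_C]; exact continuous_const
  | add P Q hP hQ => simp only [map_add]; exact hP.add hQ
  | mul_X P v hP =>
    simp only [map_mul, ev_X]
    exact hP.mul (continuous_repr b v)

include hp in
lemma tendsto_diff {a : ℕ → A} {z : A}
    (h : Tendsto (fun n : ℕ => ((p : E) ^ n)⁻¹ • (a n - 1)) atTop (𝓝 z)) (X : A)
    (Q : MvPolynomial ν E) :
    Tendsto (fun n : ℕ => ((p : E) ^ n)⁻¹ * (ev b (a n * X) Q - ev b X Q)) atTop
      (𝓝 (ev b X (Dd b z Q))) := by
  have ha : Tendsto a atTop (𝓝 1) := atendsto_one (E := E) p h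
  have hcv : ∀ v, Tendsto (fun n : ℕ => ((p : E) ^ n)⁻¹ * (b.repr (a n * X) v - b.repr X v)) atTop
      (𝓝 (b.repr (z * X) v)) := by
    intro v
    have h1 := ((continuous_repr b v).tendsto (z * X)).comp (h.mul_const X)
    refine h1.congr fun n => ?_
    simp only [Function.comp]
    rw [smul_mul_assoc, sub_mul, one_mul, map_smul, map_sub, Finsupp.smul_apply,
      Finsupp.sub_apply, smul_eq_mul]
  induction Q using MvPolynomial.induction_on with
  | C c =>
    have e : Dd b z (MvPolynomial.C c) = 0 := by
      rw [← MvPolynomial.algebraMap_eq]; exact Derivation.map_algebraMap _ _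
    rw [e, map_zero]
    simp only [ev_C, sub_self, mul_zero]
    exact tendsto_const_nhds
  | add P Q hP hQ =>
    have e : ev b X (Dd b z (P + Q)) = ev b X (Dd b z P) + ev b X (Dd b z Q) := by
      rw [map_add, map_add]
    rw [e]
    refine (hP.add hQ).congr fun n => ?_
    rw [map_add, map_add]; ring
  | mul_X P v hP =>
    have e : ev b X (Dd b z (P * MvPolynomial.X v)) =
        ev b X (Dd b z P) * b.repr X v + ev b X P * b.repr (z * X) v := by
      rw [Derivation.leibniz, map_add, smul_eq_mul, smul_eq_mul, map_mul, map_mul, ev_X, ev_Dd_X]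
      ring
    rw [e]
    have h1 : Tendsto (fun n => b.repr (a n * X) v) atTop (𝓝 (b.repr X v)) := by
      have h2 := ((continuous_repr b v).tendsto (1 * X)).comp (ha.mul_const X)
      rw [one_mul] at h2
      exact h2
    have h3 := (hP.mul h1).add ((hcv v).const_mul (ev b X P))
    refine h3.congr fun n => ?_
    have e1 : ev b (a n * X) (P * MvPolynomial.X v) = ev b (a n * X) P * b.repr (a n * X) v := by
      rw [map_mul, ev_X]
    have e2 : ev b X (P * MvPolynomial.X v) = ev b X P * b.repr X v := by
      rw [map_mul, ev_X]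
    rw [e1, e2]; ring

end limit

end Pool.Agent.Helper27.FM
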