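import Pool.Agent.Helper27.FM.Simple
import Pool.Agent.Helper27.FM.Log

/-!
# The Lie span of a family of two-dimensional representations
-/

set_option autoImplicit false
open Matrix Filter Topology

namespace Pool.Agent.Helper27.FM

section defs

variable {E : Type*} [NormedField E] {G : Type*} [Group G] {κ : Type*}

/-- `z` is the logarithm of `x` in all the representations `R k` -/
def IsLog (p : ℕ) (R : κ → G →* GL (Fin 2) E) (x : G) (z : κ → M2 E) : Prop :=
  ∀ k, Tendsto (fun n : ℕ => ((p : E) ^ n)⁻¹ • ((R k x : M2 E) ^ (p ^ n) - 1)) atTop (𝓝 (z k))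

/-- `x` is close to the identity in all the representations -/
def Small (p : ℕ) (R : κ → G →* GL (Fin 2) E) (x : G) : Prop :=
  ∀ k i j, ‖((R k x : M2 E) - 1) i j‖ ≤ (p : ℝ)⁻¹ ^ 2

/-- the span of the logarithms -/
def LSp (p : ℕ) (R : κ → G →* GL (Fin 2) E) (U : Subgroup G) : Submodule E (κ → M2 E) :=
  Submodule.span E {z | ∃ x ∈ U, IsLog p R x z}

end defs

section top

variable {E : Type*} [NormedField E] {G : Type*} [Group G] [TopologicalSpace G] {κ : Type*}

lemma exists_small [Finite κ] [IsTopologicalGroup G] [CompactSpace G] [TotallyDisconnectedSpace G]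
    (p : ℕ) [hp : Fact p.Prime] {R : κ → G →* GL (Fin 2) E} (hc : ∀ k, Continuous (R k))
    {N : Set G} (hN : IsOpen N) (h1 : (1 : G) ∈ N) :
    ∃ U : Subgroup G, U.Normal ∧ IsOpen (U : Set G) ∧ (∀ x ∈ U, Small p R x) ∧ (U : Set G) ⊆ N := by
  have hp0 : 0 < (p : ℝ)⁻¹ ^ 2 := by
    have := hp.out.pos
    positivity
  let W : Set G := N ∩ ⋂ k, ⋂ i, ⋂ j, {x | ‖((R k x : M2 E) - 1) i j‖ < (p : ℝ)⁻¹ ^ 2}
  have hW : IsOpen W := by
    apply hN.inter
    refine isOpen_iInter_of_finite fun k => isOpen_iInter_of_finite fun i =>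
      isOpen_iInter_of_finite fun j => ?_
    apply isOpen_lt _ continuous_const
    apply Continuous.norm
    exact (((continuous_coe' (hc k)).sub continuous_const).matrix_elem i j)
  have h1W : (1 : G) ∈ W := by
    refine ⟨h1, ?_⟩
    simp only [Set.mem_iInter, Set.mem_ofPred_eq]
    intro k i j
    simpa using hp0
  obtain ⟨H, hH⟩ := ProfiniteGrp.exist_openNormalSubgroup_sub_open_nhds_of_one hW h1W
  refine ⟨H.toSubgroup, H.isNormal', H.isOpen', fun x hx => ?_, fun x hx => (hH hx).1⟩
  intro k i j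
  have := (hH hx).2
  simp only [Set.mem_iInter, Set.mem_ofPred_eq] at this
  exact (this k i j).le
where
  continuous_coe' {E : Type _} [NormedField E] {G : Type _} [Group G] [TopologicalSpace G]
    {V : G →* GL (Fin 2) E} (hc : Continuous V) :
    Continuous (fun g => (V g : M2 E)) := Units.continuous_val.comp hc

end top

section logs

variable {E : Type*} [NormedField E] [IsUltrametricDist E] (p : ℕ) [hp : Fact p.Prime]
  [NormedAlgebra ℚ_[p] E] {G : Type*} [Group G] {κ : Type*}

lemma isLog_exists [CompleteSpace E] {R : κ → G →* GL (Fin 2) E} {x : G} (hx : Small p R x) :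
    ∃ z, IsLog p R x z := by
  choose z hz using fun k => exists_log_mat p (R k x : M2 E) (hx k)
  exact ⟨z, hz⟩

omit [IsUltrametricDist E] [NormedAlgebra ℚ_[p] E] hp in
lemma continuous_cj_right (g : GL (Fin 2) E) : Continuous (cj g) := by
  unfold cj
  exact (continuous_const.mul continuous_id).mul continuous_const

omit [IsUltrametricDist E] [NormedAlgebra ℚ_[p] E] hp in
lemma cj_pow (g : GL (Fin 2) E) (a : M2 E) (n : ℕ) : cj g (a ^ n) = (cj g a) ^ n := by
  induction n with
  | zero => simp [cj_one]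
  | succ n ih => rw [pow_succ, pow_succ, cj_mul, ih]

omit [IsUltrametricDist E] [NormedAlgebra ℚ_[p] E] hp in
lemma map_conj_eq (V : G →* GL (Fin 2) E) (g x : G) :
    (V (g * x * g⁻¹) : M2 E) = cj (V g) (V x : M2 E) := by
  unfold cj
  rw [map_mul, map_mul, map_inv, Units.val_mul, Units.val_mul]

omit [IsUltrametricDist E] [NormedAlgebra ℚ_[p] E] hp in
lemma isLog_conj {R : κ → G →* GL (Fin 2) E} {x : G} {z : κ → M2 E} (h : IsLog p R x z) (g : G) :
    IsLog p R (g * x * g⁻¹) (fun k => cj (R k g) (z k)) := by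
  intro k
  have h1 := ((continuous_cj_right (R k g)).tendsto (z k)).comp (h k)
  refine h1.congr fun n => ?_
  simp only [Function.comp]
  rw [cj_smul, cj_sub, cj_one, cj_pow, map_conj_eq]

omit [IsUltrametricDist E] in
include hp in
lemma norm_p_lt_one : ‖(p : E)‖ < 1 := by
  have e : (p : E) = algebraMap ℚ_[p] E (p : ℚ_[p]) := by rw [map_natCast]
  rw [e, norm_algebraMap', Padic.norm_p]
  apply inv_lt_one_of_one_lt₀
  exact_mod_cast hp.out.one_lt

omit [IsUltrametricDist E] in
include hp in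
lemma p_ne_zero' : (p : E) ≠ 0 := by
  have e : (p : E) = algebraMap ℚ_[p] E (p : ℚ_[p]) := by rw [map_natCast]
  rw [e, ne_eq, map_eq_zero]
  exact_mod_cast hp.out.ne_zero

omit [IsUltrametricDist E] in
include hp in
lemma charZeroE : CharZero E := charZero_of_injective_algebraMap (algebraMap ℚ_[p] E).injective

omit [IsUltrametricDist E] in
include hp in
/-- if `(a_n - 1)/p^n` converges then `a_n` tends to `1` -/
lemma tendsto_one_of_log {a : ℕ → M2 E} {X : M2 E}
    (h : Tendsto (fun n : ℕ => ((p : E) ^ n)⁻¹ • (a n - 1)) atTop (𝓝 X)) :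
    Tendsto a atTop (𝓝 1) := by
  have h1 : Tendsto (fun n : ℕ => (p : E) ^ n) atTop (𝓝 0) :=
    tendsto_pow_atTop_nhds_zero_of_norm_lt_one (norm_p_lt_one p)
  have h2 := (h1.smul h).add_const (1 : M2 E)
  rw [zero_smul, zero_add] at h2
  refine h2.congr fun n => ?_
  have : (p : E) ^ n ≠ 0 := pow_ne_zero _ (p_ne_zero' p)
  rw [smul_smul, mul_inv_cancel₀ this, one_smul, sub_add_cancel]

omit [IsUltrametricDist E] [NormedAlgebra ℚ_[p] E] hp in
/-- componentwise conjugation -/
lemma LSp_adj {R : κ → G →* GL (Fin 2) E} {U : Subgroup G} (hU : U.Normal) (g : G)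
    {z : κ → M2 E} (hz : z ∈ LSp p R U) : (fun k => cj (R k g) (z k)) ∈ LSp p R U := by
  unfold LSp at hz
  induction hz using Submodule.span_induction with
  | mem z hz =>
    obtain ⟨x, hx, hz⟩ := hz
    exact Submodule.subset_span ⟨g * x * g⁻¹, hU.conj_mem x hx g, isLog_conj p hz g⟩
  | zero =>
    have : (fun k => cj (R k g) ((0 : κ → M2 E) k)) = 0 := by
      funext k; exact cj_zero _
    rw [this]; exact Submodule.zero_mem _
  | add a b _ _ ha hb =>
    have : (fun k => cj (R k g) ((a + b) k)) = (fun k => cj (R k g) (a k)) +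
        (fun k => cj (R k g) (b k)) := by
      funext k; exact cj_add _ _ _
    rw [this]; exact Submodule.add_mem _ ha hb
  | smul c a _ ha =>
    have : (fun k => cj (R k g) ((c • a) k)) = c • (fun k => cj (R k g) (a k)) := by
      funext k; exact cj_smul _ _ _
    rw [this]; exact Submodule.smul_mem _ _ ha

end logs

section closed

variable {E : Type*} [NontriviallyNormedField E] [IsUltrametricDist E] [CompleteSpace E] (p : ℕ)
  [hp : Fact p.Prime] [NormedAlgebra ℚ_[p] E] {G : Type*} [Group G] {κ : Type*}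

omit [IsUltrametricDist E] [NormedAlgebra ℚ_[p] E] hp in
lemma LSp_closed [Finite κ] (R : κ → G →* GL (Fin 2) E) (U : Subgroup G) :
    IsClosed (LSp p R U : Set (κ → M2 E)) := by
  have : FiniteDimensional E (κ → M2 E) := inferInstance
  exact Submodule.closed_of_finiteDimensional (LSp p R U)

lemma LSp_bracket [Finite κ] {R : κ → G →* GL (Fin 2) E} {U : Subgroup G} (hU : U.Normal)
    (hs : ∀ x ∈ U, Small p R x) {a b : κ → M2 E} (ha : a ∈ LSp p R U) (hb : b ∈ LSp p R U) :
    a * b - b * a ∈ LSp p R U := by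
  unfold LSp at ha
  induction ha using Submodule.span_induction with
  | mem z hz =>
    obtain ⟨x, hx, hz⟩ := hz
    have hx' : x⁻¹ ∈ U := U.inv_mem hx
    obtain ⟨z', hz'⟩ := isLog_exists p (hs _ hx')
    refine (LSp_closed p R U).mem_of_tendsto
      (f := fun n : ℕ => ((p : E) ^ n)⁻¹ • ((fun k => cj (R k (x ^ (p ^ n))) (b k)) - b))
      (b := atTop) ?_ (Eventually.of_forall fun n => ?_)
    · rw [tendsto_pi_nhds]
      intro k
      have h1 := hz k
      have h2 : Tendsto (fun n : ℕ => (R k x⁻¹ : M2 E) ^ (p ^ n)) atTop (𝓝 1) :=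
        tendsto_one_of_log p (hz' k)
      have h3 := ((h1.mul_const (b k)).sub (h1.const_mul (b k))).mul h2
      rw [mul_one] at h3
      refine h3.congr fun n => ?_
      have e0 : ((R k x : M2 E) ^ (p ^ n)) * ((R k x⁻¹ : M2 E) ^ (p ^ n)) = 1 := by
        rw [← Units.val_pow_eq_pow_val, ← Units.val_pow_eq_pow_val, ← Units.val_mul, map_inv,
          inv_pow, mul_inv_cancel, Units.val_one]
      have e1 : cj (R k (x ^ (p ^ n))) (b k) =
          ((R k x : M2 E) ^ (p ^ n)) * b k * ((R k x⁻¹ : M2 E) ^ (p ^ n)) := by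
        unfold cj
        rw [map_pow, ← inv_pow, Units.val_pow_eq_pow_val, Units.val_pow_eq_pow_val, map_inv]
      simp only [Pi.smul_apply, Pi.sub_apply]
      rw [e1]
      set A := (R k x : M2 E) ^ (p ^ n)
      set B := (R k x⁻¹ : M2 E) ^ (p ^ n)
      rw [smul_mul_assoc, mul_smul_comm, ← smul_sub, smul_mul_assoc]
      congr 1
      calc ((A - 1) * b k - b k * (A - 1)) * B = A * b k * B - b k * (A * B) := by noncomm_ring
        _ = _ := by rw [e0, mul_one]
    · exact Submodule.smul_mem _ _ (Submodule.sub_mem _ (LSp_adj p hU _ hb) hb)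
  | zero => simp
  | add a a' _ _ ha ha' =>
    have : (a + a') * b - b * (a + a') = (a * b - b * a) + (a' * b - b * a') := by
      rw [add_mul, mul_add]; abel
    rw [this]; exact Submodule.add_mem _ ha ha'
  | smul c a _ ha =>
    have : (c • a) * b - b * (c • a) = c • (a * b - b * a) := by
      rw [smul_mul_assoc, mul_smul_comm, smul_sub]
    rw [this]; exact Submodule.smul_mem _ _ ha

omit [CompleteSpace E] in
lemma LSp_nonscalar [CompleteSpace E] [TopologicalSpace G] {R : κ → G →* GL (Fin 2) E}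
    {U : Subgroup G}
    (hU : U.Normal) (hUo : IsOpen (U : Set G)) (hs : ∀ x ∈ U, Small p R x) (k₀ : κ)
    (hirr : StrIrr (R k₀)) : ∃ z ∈ LSp p R U, ∀ c : E, z k₀ ≠ c • (1 : M2 E) := by
  by_contra hcon
  push Not at hcon
  have hcomm : ∀ x ∈ U, ∀ y ∈ U, (R k₀ x : M2 E) * (R k₀ y : M2 E) =
      (R k₀ y : M2 E) * (R k₀ x : M2 E) := by
    intro x hx y hy
    obtain ⟨z, hz⟩ := isLog_exists p (hs _ hx)
    obtain ⟨c, hzc⟩ := hcon z (Submodule.subset_span ⟨x, hx, hz⟩)
    have h1 := isLog_conj p hz y k₀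
    have h2 := hz k₀
    simp only at h1
    rw [hzc, cj_smul, cj_one] at h1
    rw [hzc] at h2
    have h3 := log_inj_mat p (hs _ (hU.conj_mem x hx y) k₀) (hs _ hx k₀) h1 h2
    rw [map_conj_eq] at h3
    exact ((cj_eq_iff _ _ _).mp h3).symm
  have h1 : ∀ m : M2 E, ∀ y ∈ U, m * (R k₀ y : M2 E) = (R k₀ y : M2 E) * m := by
    intro m y hy
    have hm : m ∈ Submodule.span E ((fun g => (R k₀ g : M2 E)) '' (U : Set G)) := by
      rw [hirr U hUo]; trivial
    induction hm using Submodule.span_induction with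
    | mem x hx =>
      obtain ⟨g, hg, rfl⟩ := hx
      exact hcomm g hg y hy
    | zero => simp
    | add a b _ _ ha hb => rw [mul_add, add_mul, ha, hb]
    | smul c a _ ha => rw [mul_smul_comm, smul_mul_assoc, ha]
  have h2 : ∀ m m' : M2 E, m * m' = m' * m := by
    intro m m'
    have hm : m' ∈ Submodule.span E ((fun g => (R k₀ g : M2 E)) '' (U : Set G)) := by
      rw [hirr U hUo]; trivial
    induction hm using Submodule.span_induction with
    | mem x hx =>
      obtain ⟨g, hg, rfl⟩ := hx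
      exact h1 m g hg
    | zero => simp
    | add a b _ _ ha hb => rw [mul_add, add_mul, ha, hb]
    | smul c a _ ha => rw [mul_smul_comm, smul_mul_assoc, ha]
  exact efne (E := E) (sub_eq_zero.mpr (h2 _ _))

/-- Main dichotomy: a strongly irreducible member of the family is a twist of another one, or
the Lie span contains its `sl_2`. -/
theorem dichotomy [Finite κ] [DecidableEq κ] [TopologicalSpace G] {R : κ → G →* GL (Fin 2) E}
    (hc : ∀ k, Continuous (R k)) {U : Subgroup G}
    (hU : U.Normal) (hUo : IsOpen (U : Set G)) (hs : ∀ x ∈ U, Small p R x) (k₀ : κ)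
    (hirr : StrIrr (R k₀)) :
    (∃ k, k ≠ k₀ ∧ ∃ h : GL (Fin 2) E, ∀ g, ∃ c : E, (R k₀ g : M2 E) = c • cj h (R k g)) ∨
      ∀ x : M2 E, x.trace = 0 → Pi.single k₀ x ∈ LSp p R U := by
  haveI : CharZero E := charZeroE p
  let π : (κ → M2 E) →ₗ[E] Amb E {k // k ≠ k₀} :=
    LinearMap.prod (LinearMap.proj k₀) (LinearMap.pi fun i => LinearMap.proj i.1)
  have hπ : ∀ z, π z = (z k₀, fun i => z i.1) := fun z => rfl
  have key := goursat (R k₀) (fun i : {k // k ≠ k₀} => R i.1)
    (adSimple_of_strIrr (hc k₀) hirr) ((LSp p R U).map π) ?_ ?_ ?_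
  · rcases key with ⟨i, h⟩ | h
    · exact Or.inl ⟨i.1, i.2, h⟩
    · right
      intro x hx
      obtain ⟨z, hz, hzx⟩ := h x hx
      rw [hπ] at hzx
      have : z = Pi.single k₀ x := by
        funext k
        by_cases hk : k = k₀
        · subst hk
          rw [Pi.single_eq_same]
          exact congrArg Prod.fst hzx
        · rw [Pi.single_eq_of_ne hk]
          exact congrFun (congrArg Prod.snd hzx) ⟨k, hk⟩
      rw [← this]; exact hz
  · rintro _ ⟨a, ha, rfl⟩ _ ⟨b, hb, rfl⟩
    exact ⟨a * b - b * a, LSp_bracket p hU hs ha hb, rfl⟩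
  · rintro g _ ⟨a, ha, rfl⟩
    exact ⟨_, LSp_adj p hU g ha, rfl⟩
  · obtain ⟨z, hz, hz'⟩ := LSp_nonscalar p hU hUo hs k₀ hirr
    exact ⟨π z, ⟨z, hz, rfl⟩, hz'⟩

end closed

end Pool.Agent.Helper27.FM
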